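import Mathlib

/-!
# Power series over a superalgebra

`A` a `ℚ`-superalgebra with operators (the algebra of a `GA`), `x` a formal central even variable: the operators of `A`
act coefficientwise on `PowerSeries A`; `psdx` formal derivative, `psev` constant coefficient, `psint` the primitive
with constant coefficient `0`.
-/

set_option autoImplicit false

namespace AnWL

open PowerSeries

section
variable {A : Type} [Ring A] [Algebra ℚ A]

theorem ps_coeff_smul (n : ℕ) (r : ℚ) (a : PowerSeries A) : coeff n (r • a) = r • coeff n a :=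
  LinearMap.map_smul_of_tower _ _ _

/-- Coefficientwise extension of a linear map. -/
noncomputable def psL (f : A →ₗ[ℚ] A) : PowerSeries A →ₗ[ℚ] PowerSeries A where
  toFun a := PowerSeries.mk fun n => f (coeff n a)
  map_add' a b := by ext n; simp
  map_smul' r a := by
    ext n
    rw [coeff_mk, ps_coeff_smul, map_smul, RingHom.id_apply, ps_coeff_smul, coeff_mk]

@[simp] theorem coeff_psL (f : A →ₗ[ℚ] A) (n : ℕ) (a : PowerSeries A) :
    coeff n (psL f a) = f (coeff n a) := by
  simp [psL]

/-- Coefficientwise extension of an algebra map. -/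
noncomputable def psH (f : A →ₐ[ℚ] A) : PowerSeries A →ₐ[ℚ] PowerSeries A where
  toRingHom := PowerSeries.map (f : A →+* A)
  commutes' r := by
    show PowerSeries.map (f : A →+* A) (algebraMap ℚ (PowerSeries A) r) = algebraMap ℚ (PowerSeries A) r
    ext n
    rw [coeff_map, PowerSeries.algebraMap_apply, coeff_C]
    split_ifs <;> simp

@[simp] theorem coeff_psH (f : A →ₐ[ℚ] A) (n : ℕ) (a : PowerSeries A) :
    coeff n (psH f a) = f (coeff n a) := by
  show coeff n (PowerSeries.map (f : A →+* A) a) = _
  rw [coeff_map]; rfl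

/-- The formal derivative. -/
noncomputable def psdx (A : Type) [Ring A] [Algebra ℚ A] : PowerSeries A →ₗ[ℚ] PowerSeries A where
  toFun a := PowerSeries.mk fun n => ((n + 1 : ℕ) : ℚ) • coeff (n + 1) a
  map_add' a b := by ext n; simp [smul_add]
  map_smul' r a := by
    ext n
    rw [coeff_mk, ps_coeff_smul, RingHom.id_apply, ps_coeff_smul, coeff_mk, smul_comm]

@[simp] theorem coeff_psdx (n : ℕ) (a : PowerSeries A) :
    coeff n (psdx A a) = ((n + 1 : ℕ) : ℚ) • coeff (n + 1) a := by
  simp [psdx]

/-- The constant coefficient, as a series. -/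
noncomputable def psev (A : Type) [Ring A] [Algebra ℚ A] : PowerSeries A →ₐ[ℚ] PowerSeries A where
  toRingHom := (PowerSeries.C (R := A)).comp (constantCoeff (R := A))
  commutes' r := by
    show PowerSeries.C (constantCoeff (algebraMap ℚ (PowerSeries A) r)) = algebraMap ℚ (PowerSeries A) r
    rw [PowerSeries.algebraMap_apply, constantCoeff_C]

theorem psev_apply (a : PowerSeries A) : psev A a = PowerSeries.C (coeff 0 a) := by
  show PowerSeries.C (constantCoeff a) = _
  rw [coeff_zero_eq_constantCoeff_apply]

/-- The primitive. -/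
noncomputable def psint (A : Type) [Ring A] [Algebra ℚ A] : PowerSeries A →ₗ[ℚ] PowerSeries A where
  toFun a := PowerSeries.mk fun n => if n = 0 then 0 else ((n : ℕ) : ℚ)⁻¹ • coeff (n - 1) a
  map_add' a b := by
    ext n
    by_cases h : n = 0 <;> simp [h, smul_add]
  map_smul' r a := by
    ext n
    by_cases h : n = 0
    · simp [h]
    · rw [RingHom.id_apply, coeff_mk, ps_coeff_smul, ps_coeff_smul, coeff_mk, if_neg h, if_neg h, smul_comm]

theorem psint_zero (a : PowerSeries A) : coeff 0 (psint A a) = 0 := by simp [psint]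

theorem psint_succ (n : ℕ) (a : PowerSeries A) :
    coeff (n + 1) (psint A a) = (((n + 1 : ℕ) : ℚ))⁻¹ • coeff n a := by
  simp [psint]

theorem psdx_psint (a : PowerSeries A) : psdx A (psint A a) = a := by
  ext n
  rw [coeff_psdx, psint_succ, smul_smul, mul_inv_cancel₀ (by positivity), one_smul]

theorem psev_psint (a : PowerSeries A) : psev A (psint A a) = 0 := by
  rw [psev_apply, psint_zero, map_zero]

theorem psdx_psev (a : PowerSeries A) : psdx A (psev A a) = 0 := by
  ext n
  rw [coeff_psdx, psev_apply, coeff_C, if_neg (Nat.succ_ne_zero n), smul_zero, map_zero]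

theorem psev_of_psdx {a : PowerSeries A} (h : psdx A a = 0) : psev A a = a := by
  ext n
  rw [psev_apply, coeff_C]
  split_ifs with hn
  · rw [hn]
  · obtain ⟨m, rfl⟩ := Nat.exists_eq_succ_of_ne_zero hn
    have h1 : coeff m (psdx A a) = 0 := by rw [h, map_zero]
    rw [coeff_psdx] at h1
    have h2 : ((m + 1 : ℕ) : ℚ) ≠ 0 := by positivity
    exact ((smul_eq_zero.1 h1).resolve_left h2).symm

/-- Leibniz rule for the coefficientwise extension of a (super)derivation. -/
theorem psL_mul (f : A →ₗ[ℚ] A) (s : A →ₐ[ℚ] A) (h : ∀ a b, f (a * b) = f a * b + s a * f b)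
    (a b : PowerSeries A) : psL f (a * b) = psL f a * b + psH s a * psL f b := by
  ext n
  rw [coeff_psL, coeff_mul, map_sum, map_add, coeff_mul, coeff_mul, ← Finset.sum_add_distrib]
  refine Finset.sum_congr rfl fun p _ => ?_
  rw [h, coeff_psL, coeff_psH, coeff_psL]

/-- Leibniz rule for the formal derivative. -/
theorem psdx_mul (a b : PowerSeries A) : psdx A (a * b) = psdx A a * b + a * psdx A b := by
  ext n
  have h1 : ((n + 1 : ℕ) : ℚ) • coeff (n + 1) (a * b) =
      ∑ p ∈ Finset.HasAntidiagonal.antidiagonal (n + 1), ((p.1 : ℚ) • (coeff p.1 a * coeff p.2 b) +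
        (p.2 : ℚ) • (coeff p.1 a * coeff p.2 b)) := by
    rw [coeff_mul, Finset.smul_sum]
    refine Finset.sum_congr rfl fun p hp => ?_
    rw [← add_smul, ← Nat.cast_add, Finset.HasAntidiagonal.mem_antidiagonal.1 hp]
  rw [coeff_psdx, h1, Finset.sum_add_distrib, map_add, coeff_mul, coeff_mul]
  congr 1
  · rw [Finset.Nat.sum_antidiagonal_succ]
    simp only [Nat.cast_zero, zero_smul, zero_add]
    refine Finset.sum_congr rfl fun p _ => ?_
    rw [coeff_psdx, smul_mul_assoc]
  · rw [Finset.Nat.sum_antidiagonal_succ']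
    simp only [Nat.cast_zero, zero_smul, zero_add]
    refine Finset.sum_congr rfl fun p _ => ?_
    rw [coeff_psdx, mul_smul_comm]

omit [Algebra ℚ A] in
/-- The variable is central. -/
theorem psX_comm (a : PowerSeries A) : (X : PowerSeries A) * a = a * X := by
  ext n
  cases n with
  | zero => simp
  | succ n => rw [coeff_succ_X_mul, coeff_succ_mul_X]

theorem psdx_X : psdx A (X : PowerSeries A) = 1 := by
  ext n
  rw [coeff_psdx, coeff_X, coeff_one]
  by_cases h : n = 0
  · simp [h]
  · rw [if_neg (by omega), if_neg h, smul_zero]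

theorem psev_X : psev A (X : PowerSeries A) = 0 := by
  rw [psev_apply, coeff_zero_X, map_zero]

theorem psL_X (f : A →ₗ[ℚ] A) (h : f 1 = 0) : psL f (X : PowerSeries A) = 0 := by
  ext n
  rw [coeff_psL, coeff_X, map_zero]
  split_ifs
  · exact h
  · exact map_zero f

theorem psH_X (f : A →ₐ[ℚ] A) : psH f (X : PowerSeries A) = X := by
  ext n
  rw [coeff_psH, coeff_X]
  split_ifs
  · exact map_one f
  · exact map_zero f

omit [Algebra ℚ A] in
/-- A series is a unit as soon as its constant coefficient is. -/
theorem ps_isUnit {a : PowerSeries A} (h : IsUnit (coeff 0 a)) : IsUnit a :=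
  isUnit_iff_constantCoeff.2 (by rwa [coeff_zero_eq_constantCoeff_apply] at h)

omit [Algebra ℚ A] in
theorem ps_isUnit_ev {a : PowerSeries A} (h : IsUnit a) : IsUnit (coeff 0 a) := by
  rw [coeff_zero_eq_constantCoeff_apply]
  exact isUnit_constantCoeff a h

/-- Compatibility of the coefficientwise extensions with the formal derivative. -/
theorem psL_psdx (f : A →ₗ[ℚ] A) (a : PowerSeries A) : psL f (psdx A a) = psdx A (psL f a) := by
  ext n
  rw [coeff_psL, coeff_psdx, map_smul, coeff_psdx, coeff_psL]

theorem psH_psdx (f : A →ₐ[ℚ] A) (a : PowerSeries A) : psH f (psdx A a) = psdx A (psH f a) := by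
  ext n
  rw [coeff_psH, coeff_psdx, map_smul, coeff_psdx, coeff_psH]

theorem psL_psev (f : A →ₗ[ℚ] A) (a : PowerSeries A) : psL f (psev A a) = psev A (psL f a) := by
  ext n
  rw [coeff_psL, psev_apply, psev_apply, coeff_C, coeff_C, coeff_psL]
  split_ifs
  · rfl
  · exact map_zero f

theorem psH_psev (f : A →ₐ[ℚ] A) (a : PowerSeries A) : psH f (psev A a) = psev A (psH f a) := by
  ext n
  rw [coeff_psH, psev_apply, psev_apply, coeff_C, coeff_C, coeff_psH]
  split_ifs
  · rfl
  · exact map_zero f

/-- The power series all of whose coefficients lie in a subalgebra. -/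
noncomputable def psR (R : Subalgebra ℚ A) : Subalgebra ℚ (PowerSeries A) where
  carrier := {a | ∀ n, coeff n a ∈ R}
  mul_mem' {a b} ha hb n := by
    rw [coeff_mul]
    exact Subalgebra.sum_mem _ fun p _ => R.mul_mem (ha _) (hb _)
  add_mem' {a b} ha hb n := by
    rw [map_add]
    exact R.add_mem (ha n) (hb n)
  algebraMap_mem' r n := by
    rw [PowerSeries.algebraMap_apply, coeff_C]
    split_ifs
    · exact R.algebraMap_mem r
    · exact R.zero_mem

theorem mem_psR {R : Subalgebra ℚ A} {a : PowerSeries A} : a ∈ psR R ↔ ∀ n, coeff n a ∈ R := Iff.rfl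

/-- The power series all of whose coefficients lie in a subspace. -/
noncomputable def psI (I : Submodule ℚ A) : Submodule ℚ (PowerSeries A) where
  carrier := {a | ∀ n, coeff n a ∈ I}
  add_mem' {a b} ha hb n := by
    rw [map_add]
    exact I.add_mem (ha n) (hb n)
  zero_mem' n := by
    rw [map_zero]
    exact I.zero_mem
  smul_mem' r a ha n := by
    rw [ps_coeff_smul]
    exact I.smul_mem r (ha n)

theorem mem_psI {I : Submodule ℚ A} {a : PowerSeries A} : a ∈ psI I ↔ ∀ n, coeff n a ∈ I := Iff.rfl

theorem psR_int {R : Subalgebra ℚ A} {a : PowerSeries A} (h : a ∈ psR R) : psint A a ∈ psR R := by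
  intro n
  cases n with
  | zero => rw [psint_zero]; exact R.zero_mem
  | succ n => rw [psint_succ]; exact R.smul_mem (h n) _

theorem psI_int {I : Submodule ℚ A} {a : PowerSeries A} (h : a ∈ psI I) : psint A a ∈ psI I := by
  intro n
  cases n with
  | zero => rw [psint_zero]; exact I.zero_mem
  | succ n => rw [psint_succ]; exact I.smul_mem _ (h n)

theorem psR_dx {R : Subalgebra ℚ A} {a : PowerSeries A} (h : a ∈ psR R) : psdx A a ∈ psR R := by
  intro n
  rw [coeff_psdx]
  exact R.smul_mem (h _) _

theorem psI_dx {I : Submodule ℚ A} {a : PowerSeries A} (h : a ∈ psI I) : psdx A a ∈ psI I := by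
  intro n
  rw [coeff_psdx]
  exact I.smul_mem _ (h _)

end

end AnWL
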