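import Pool.Agent.Helper48.WL.Defs
import Pool.Agent.Helper79.G2.PS

/-!
# Power series over a `GA`: products, homogeneous series, inverses

Auxiliary lemmas for `Pool/Agent/Helper23/OC/D03.lean`.
-/

set_option autoImplicit false

namespace AnWL

open PowerSeries

section
variable {A : Type} [Ring A] [Algebra ℚ A]

omit [Algebra ℚ A] in
theorem ps_comm_of {a b : PowerSeries A} (h : ∀ i j, coeff i a * coeff j b = coeff j b * coeff i a) :
    a * b = b * a := by
  ext n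
  rw [coeff_mul, coeff_mul, ← Finset.Nat.sum_antidiagonal_swap]
  exact Finset.sum_congr rfl fun p _ => h _ _

omit [Algebra ℚ A] in
theorem ps_anti_of {a b : PowerSeries A}
    (h : ∀ i j, coeff i a * coeff j b = -(coeff j b * coeff i a)) : a * b = -(b * a) := by
  ext n
  rw [map_neg, coeff_mul, coeff_mul, ← Finset.Nat.sum_antidiagonal_swap, ← Finset.sum_neg_distrib]
  exact Finset.sum_congr rfl fun p _ => h _ _

theorem ps_coeff_eq_of_psdx {a : PowerSeries A} (h : psdx A a = 0) (n : ℕ) :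
    coeff n a = if n = 0 then coeff 0 a else 0 := by
  have h1 := psev_of_psdx h
  rw [psev_apply] at h1
  have h2 := congrArg (coeff n) h1
  rw [coeff_C] at h2
  exact h2.symm

omit [Algebra ℚ A] in
theorem ps_coeff_zero_pow (a : PowerSeries A) (k : ℕ) : coeff 0 (a ^ k) = coeff 0 a ^ k := by
  rw [coeff_zero_eq_constantCoeff_apply, coeff_zero_eq_constantCoeff_apply, map_pow]

/-- `x ↦ 2 ^ e x` and an algebra map on the coefficients. -/
noncomputable def psT (τ : A →ₐ[ℚ] A) (e : ℤ) : PowerSeries A →* PowerSeries A where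
  toFun a := PowerSeries.mk fun n => ((2 : ℚ) ^ ((n : ℤ) * e)) • τ (coeff n a)
  map_one' := by
    ext n
    rw [coeff_mk, coeff_one]
    split_ifs with h
    · rw [h, map_one]; simp
    · rw [map_zero, smul_zero]
  map_mul' a b := by
    ext n
    rw [coeff_mk, coeff_mul, coeff_mul, map_sum, Finset.smul_sum]
    refine Finset.sum_congr rfl fun p hp => ?_
    rw [coeff_mk, coeff_mk, smul_mul_smul_comm, ← zpow_add₀ (by norm_num : (2 : ℚ) ≠ 0), ← add_mul,
      ← Nat.cast_add, Finset.HasAntidiagonal.mem_antidiagonal.1 hp, map_mul]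

theorem coeff_psT (τ : A →ₐ[ℚ] A) (e : ℤ) (n : ℕ) (a : PowerSeries A) :
    coeff n (psT τ e a) = ((2 : ℚ) ^ ((n : ℤ) * e)) • τ (coeff n a) := by
  show coeff n (PowerSeries.mk fun m => ((2 : ℚ) ^ ((m : ℤ) * e)) • τ (coeff m a)) = _
  rw [coeff_mk]

theorem unit_inv_of_smul (φ : PowerSeries A →* PowerSeries A) (u : (PowerSeries A)ˣ) {c : ℚ}
    (hc : c ≠ 0) (h : φ (u : PowerSeries A) = c • (u : PowerSeries A)) :
    φ ((u⁻¹ : (PowerSeries A)ˣ) : PowerSeries A) = c⁻¹ • ((u⁻¹ : (PowerSeries A)ˣ) : PowerSeries A) := by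
  have h1 : φ ((u⁻¹ : (PowerSeries A)ˣ) : PowerSeries A) * (c • (u : PowerSeries A)) = 1 := by
    rw [← h, ← map_mul, Units.inv_mul, map_one]
  rw [mul_smul_comm] at h1
  have h2 : φ ((u⁻¹ : (PowerSeries A)ˣ) : PowerSeries A) * (u : PowerSeries A)
      = c⁻¹ • (1 : PowerSeries A) := by
    rw [← h1, smul_smul, inv_mul_cancel₀ hc, one_smul]
  calc φ ((u⁻¹ : (PowerSeries A)ˣ) : PowerSeries A)
      = (φ ((u⁻¹ : (PowerSeries A)ˣ) : PowerSeries A) * (u : PowerSeries A))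
          * ((u⁻¹ : (PowerSeries A)ˣ) : PowerSeries A) := by
        rw [mul_assoc, Units.mul_inv, mul_one]
    _ = c⁻¹ • ((u⁻¹ : (PowerSeries A)ˣ) : PowerSeries A) := by rw [h2, smul_mul_assoc, one_mul]

end

section
variable {A B : Type} [Ring A] [Algebra ℚ A] [Ring B] [Algebra ℚ B]

/-- Coefficientwise extension of an algebra map. -/
noncomputable def psF (f : A →ₐ[ℚ] B) : PowerSeries A →ₐ[ℚ] PowerSeries B where
  toRingHom := PowerSeries.map (f : A →+* B)
  commutes' r := by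
    show PowerSeries.map (f : A →+* B) (algebraMap ℚ (PowerSeries A) r) =
      algebraMap ℚ (PowerSeries B) r
    ext n
    rw [coeff_map, PowerSeries.algebraMap_apply, PowerSeries.algebraMap_apply, coeff_C, coeff_C]
    split_ifs <;> simp

theorem coeff_psF (f : A →ₐ[ℚ] B) (n : ℕ) (a : PowerSeries A) :
    coeff n (psF f a) = f (coeff n a) := by
  show coeff n (PowerSeries.map (f : A →+* B) a) = _
  rw [coeff_map]; rfl

theorem psF_psdx (f : A →ₐ[ℚ] B) (a : PowerSeries A) : psdx B (psF f a) = psF f (psdx A a) := by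
  ext n
  rw [coeff_psdx, coeff_psF, coeff_psF, coeff_psdx, map_smul]

theorem psF_psev (f : A →ₐ[ℚ] B) (a : PowerSeries A) : psev B (psF f a) = psF f (psev A a) := by
  ext n
  rw [psev_apply, psev_apply, coeff_psF, coeff_psF, coeff_C, coeff_C]
  split_ifs
  · rfl
  · exact (map_zero f).symm

theorem psF_psint (f : A →ₐ[ℚ] B) (a : PowerSeries A) : psint B (psF f a) = psF f (psint A a) := by
  ext n
  cases n with
  | zero => rw [psint_zero, coeff_psF, psint_zero, map_zero]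
  | succ n => rw [psint_succ, coeff_psF, coeff_psF, psint_succ, map_smul]

theorem psF_psL (f : A →ₐ[ℚ] B) (g : A →ₗ[ℚ] A) (h : B →ₗ[ℚ] B) (hf : ∀ a, h (f a) = f (g a))
    (a : PowerSeries A) : psL h (psF f a) = psF f (psL g a) := by
  ext n
  rw [coeff_psL, coeff_psF, coeff_psF, coeff_psL, hf]

theorem psF_mem (f : A →ₐ[ℚ] B) (S : ℕ → Submodule ℚ A) (T : ℕ → Submodule ℚ B)
    (hf : ∀ n, ∀ a ∈ S n, f a ∈ T n) (a : PowerSeries A) (h : ∀ n, coeff n a ∈ S n) (n : ℕ) :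
    coeff n (psF f a) ∈ T n := by
  rw [coeff_psF]
  exact hf n _ (h n)

theorem psF_psH (f : A →ₐ[ℚ] B) (g : A →ₐ[ℚ] A) (h : B →ₐ[ℚ] B) (hf : ∀ a, h (f a) = f (g a))
    (a : PowerSeries A) : psH h (psF f a) = psF f (psH g a) := by
  ext n
  rw [coeff_psH, coeff_psF, coeff_psF, coeff_psH, hf]

end

section
variable {M : Type} {xd : M → ℤ} {N : ℕ} (G : GA M xd N)

/-- Homogeneous series, `x` of even degree `e`, by means of the two multiplicative maps. -/
theorem ps_hm_iff {e : ℤ} (he : Even e) (g : ℤ) (a : PowerSeries G.A) :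
    (∀ n : ℕ, coeff n a ∈ G.Hm (g - n * e)) ↔
      psT G.τ e a = ((2 : ℚ) ^ g) • a ∧ psT G.s 0 a = ((-1 : ℚ) ^ g) • a := by
  have h2 : ∀ k : ℤ, ((2 : ℚ) ^ k) ≠ 0 := fun k => zpow_ne_zero _ (by norm_num)
  constructor
  · intro h
    constructor
    · ext n
      rw [coeff_psT, ps_coeff_smul, (h n).1, smul_smul, ← zpow_add₀ (by norm_num : (2 : ℚ) ≠ 0),
        add_sub_cancel]
    · ext n
      rw [coeff_psT, ps_coeff_smul, mul_zero, zpow_zero, one_smul, (h n).2, zpow_sub₀ (by norm_num),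
        (he.mul_left _).neg_one_zpow, div_one]
  · rintro ⟨h, h'⟩ n
    refine ⟨?_, ?_⟩
    · have h1 := congrArg (coeff n) h
      rw [coeff_psT, ps_coeff_smul] at h1
      have h3 : ((2 : ℚ) ^ (-((n : ℤ) * e))) • (((2 : ℚ) ^ ((n : ℤ) * e)) • G.τ (coeff n a))
          = ((2 : ℚ) ^ (-((n : ℤ) * e))) • (((2 : ℚ) ^ g) • coeff n a) := by rw [h1]
      rw [smul_smul, smul_smul, ← zpow_add₀ (by norm_num : (2 : ℚ) ≠ 0),
        ← zpow_add₀ (by norm_num : (2 : ℚ) ≠ 0), neg_add_cancel, zpow_zero, one_smul] at h3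
      rw [h3]
      congr 2
      ring
    · have h1 := congrArg (coeff n) h'
      rw [coeff_psT, ps_coeff_smul, mul_zero, zpow_zero, one_smul] at h1
      rw [h1, zpow_sub₀ (by norm_num), (he.mul_left _).neg_one_zpow, div_one]

theorem ps_hm_inv {e : ℤ} (he : Even e) {g : ℤ} (u : (PowerSeries G.A)ˣ)
    (hu : ∀ n : ℕ, coeff n (u : PowerSeries G.A) ∈ G.Hm (g - n * e)) (n : ℕ) :
    coeff n ((u⁻¹ : (PowerSeries G.A)ˣ) : PowerSeries G.A) ∈ G.Hm (-g - n * e) := by
  obtain ⟨h1, h2⟩ := (ps_hm_iff G he g _).1 hu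
  refine (ps_hm_iff G he (-g) _).2 ⟨?_, ?_⟩ n
  · rw [zpow_neg]
    exact unit_inv_of_smul _ u (zpow_ne_zero _ (by norm_num)) h1
  · rw [zpow_neg]
    exact unit_inv_of_smul _ u (zpow_ne_zero _ (by norm_num)) h2

theorem Mor_Hm {H : GA M xd N} (φ : Mor G H) {g : ℤ} {a : G.A} (ha : a ∈ G.Hm g) :
    φ.f a ∈ H.Hm g :=
  ⟨by rw [φ.τ, ha.1, map_smul], by rw [φ.s, ha.2, map_smul]⟩

theorem ps_hm_s {g : ℤ} {a : G.A} (ha : a ∈ G.Hm g) : G.s a ∈ G.Hm g := by
  rw [ha.2]
  exact (G.Hm g).smul_mem _ ha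

end

end AnWL
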