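import Pool.Agent.Helper79.G2.Root3

/-!
# Project OC: `ColK` from the node theorem `Nst`

`kil_stage j`: all the even words of length `≥ B - j` of all the `F a` are killed in a tame extension (`B` = bound for
the nonzero words). `colK_of_nst`: the empty word: `(coeff 0 (F a)) ^ c = D z₀ + Q z₁`, `Q` odd.
-/

set_option autoImplicit false

namespace AnOC
open AnWL AnWL.Nd PowerSeries

variable {M : Type} {xd : M → ℤ} {N : ℕ}

theorem psF_comp {G H H' : GA M xd N} (φ : Mor G H) (ψ : Mor H H') (a : PowerSeries G.A) :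
    psF ψ.f (psF φ.f a) = psF (φ.comp ψ).f a := by
  ext n
  rw [coeff_psF, coeff_psF, coeff_psF]
  rfl

theorem Tame_comp {G H H' : GA M xd N} {φ : Mor G H} {ψ : Mor H H'} (h : φ.Tame) (h' : ψ.Tame) :
    (φ.comp ψ).Tame := by
  intro g hg
  rcases h' g hg with ⟨g', hg', rfl⟩ | h1
  · rcases h g' hg' with ⟨g'', hg'', rfl⟩ | h2
    · exact Or.inl ⟨g'', hg'', rfl⟩
    · exact Or.inr (ψ.Nl _ h2)
  · exact Or.inr h1

/-- All the pairs of a finite set of words of the same length. -/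
theorem kil_list [Fintype M] {K : Set (GA M xd N)} (hI : IPos K) {dx : ℤ} (he : Even dx)
    (hN : ∀ ℓ, Nst K dx he ℓ) (hdx : 2 ≤ dx) (hxd : ∀ j, 0 < xd j) {α : Type} (E : Finset α)
    (f : α → ℤ) (n : ℕ) (T : Finset (α × List (Option M)))
    (hT : ∀ p ∈ T, p.1 ∈ E ∧ p.2.length = n ∧ Even (p.2.countP Option.isSome))
    {G : GA M xd N} (hG : G ∈ K) {Q : G.A} {ρ : M → G.A} {F : α → PowerSeries G.A}
    (h : CD G dx Q ρ E F f)
    (hl : ∀ a ∈ E, ∀ v : List (Option M), Even (v.countP Option.isSome) → n < v.length →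
      Kil G dx Q ρ (F a) (f a) v) :
    ∃ H ∈ K, ∃ φ : Mor G H, φ.Tame ∧ ∀ p ∈ T,
      Kil H dx (φ.f Q) (fun s => φ.f (ρ s)) (psF φ.f (F p.1)) (f p.1) p.2 := by
  classical
  induction T using Finset.induction_on with
  | empty =>
    exact ⟨G, hG, Mor.id G, fun g hg => Or.inl ⟨g, hg, rfl⟩,
      fun p hp => absurd hp (Finset.notMem_empty p)⟩
  | insert p T hpT ih =>
    obtain ⟨H, hH, φ, hφ, hk⟩ := ih fun p' hp' => hT p' (Finset.mem_insert_of_mem hp')
    obtain ⟨h1, h2, h3⟩ := hT p (Finset.mem_insert_self p T)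
    obtain ⟨H', hH', ψ, hψ, hk'⟩ := kil_step hI he hN hH hdx hxd (h.map φ) h1 p.2 h3 (by
      intro v hv hve
      refine (hl p.1 h1 (v ++ p.2) ?_ ?_).map φ
      · rw [List.countP_append]
        exact hve.add h3
      · rw [List.length_append, h2]
        have := List.length_pos_iff.2 hv
        omega)
    refine ⟨H', hH', φ.comp ψ, Tame_comp hφ hψ, fun p' hp' => ?_⟩
    rcases Finset.mem_insert.1 hp' with rfl | hp'
    · rw [← psF_comp]
      exact hk'
    · rw [← psF_comp]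
      exact (hk p' hp').map ψ

theorem kil_stage [Fintype M] {K : Set (GA M xd N)} (hI : IPos K) {dx : ℤ} (he : Even dx)
    (hN : ∀ ℓ, Nst K dx he ℓ) (hdx : 2 ≤ dx) (hxd : ∀ j, 0 < xd j) {α : Type} (E : Finset α)
    (f : α → ℤ) (B : ℕ) (hB : ∀ a ∈ E, f a ≤ B)
    {G : GA M xd N} (hG : G ∈ K) {Q : G.A} {ρ : M → G.A} {F : α → PowerSeries G.A}
    (h : CD G dx Q ρ E F f) (j : ℕ) :
    ∃ H ∈ K, ∃ φ : Mor G H, φ.Tame ∧ ∀ a ∈ E, ∀ v : List (Option M),
      Even (v.countP Option.isSome) → B - j ≤ v.length →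
      Kil H dx (φ.f Q) (fun s => φ.f (ρ s)) (psF φ.f (F a)) (f a) v := by
  induction j with
  | zero =>
    refine ⟨G, hG, Mor.id G, fun g hg => Or.inl ⟨g, hg, rfl⟩, fun a ha v _ hv => ?_⟩
    refine Kil.map (Mor.id G) (kil_zero 1 ?_)
    rw [pow_one]
    refine wd_long hI hG hdx hxd h (h.F_c a ha) ?_
    have := hB a ha
    have h2 : (B : ℤ) ≤ v.length := by exact_mod_cast hv
    omega
  | succ j ih =>
    obtain ⟨H, hH, φ, hφ, hk⟩ := ih
    by_cases hj : B - j = B - (j + 1)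
    · exact ⟨H, hH, φ, hφ, by rwa [← hj]⟩
    set n := B - (j + 1) with hn
    have hn1 : B - j = n + 1 := by omega
    rw [hn1] at hk
    have hfin : {w : List (Option M) | w.length = n}.Finite := List.finite_length_eq _ n
    classical
    obtain ⟨H', hH', ψ, hψ, hk'⟩ := kil_list hI he hN hdx hxd E f n
      ((E ×ˢ hfin.toFinset).filter fun p => Even (p.2.countP Option.isSome))
      (by
        intro p hp
        rw [Finset.mem_filter, Finset.mem_product] at hp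
        exact ⟨hp.1.1, by simpa using hp.1.2, hp.2⟩)
      hH (h.map φ) (fun a ha v hv hv' => hk a ha v hv (by omega))
    refine ⟨H', hH', φ.comp ψ, Tame_comp hφ hψ, fun a ha v hv hv' => ?_⟩
    rw [← psF_comp]
    by_cases hvn : v.length = n
    · exact hk' (a, v) (Finset.mem_filter.2 ⟨Finset.mem_product.2 ⟨ha, by simpa using hvn⟩, hv⟩)
    · exact (hk a ha v hv (by omega)).map ψ

/-- `ColK` from the node theorem. -/
theorem colK_of_nst [Finite M] (hxd : ∀ j, 0 < xd j) (K : Set (GA M xd N)) (hI : IPos K)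
    (hN : ∀ (e : ℤ) (he : Even e), 2 ≤ e → ∀ ℓ, Nst K e he ℓ) : ColK K := by
  have := Fintype.ofFinite M
  intro G hG dx Q ρ he hdx hQI hQd hQD hρR hρd hρD hρc α E F f hfe _ hFc hFD hdi
  have h : CD G dx Q ρ E F f :=
    ⟨hQI, hQd, hQD, hρR, hρd, hρD, hρc, hfe, hFc, hFD, hdi⟩
  obtain ⟨B, hB⟩ : ∃ B : ℕ, ∀ a ∈ E, f a ≤ B := by
    refine ⟨∑ a ∈ E, (f a).toNat, fun a ha => ?_⟩
    have h1 : (f a).toNat ≤ ∑ a ∈ E, (f a).toNat :=
      Finset.single_le_sum (f := fun a => (f a).toNat) (fun _ _ => Nat.zero_le _) ha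
    omega
  obtain ⟨H, hH, φ, hφ, hk⟩ := kil_stage hI he (hN dx he hdx) hdx hxd E f B hB hG h B
  refine ⟨H, hH, φ, hφ, fun a ha => ?_⟩
  obtain ⟨c, z, z1, -, z3⟩ := hk a ha [] (by simp) (by simp)
  have h' := h.map φ
  have hQ : φ.f Q ∈ H.Nl := by
    refine H.pow_Nl _ (H.I_le _ h'.Q_I) 2 ?_
    rw [pow_two, Hm_sq H he.add_one h'.Q_d]
    exact H.Nl.zero_mem
  have h1 := congrArg (coeff 0) z3
  have h2 : coeff 0 (dl H (φ.f Q) z) ∈ H.Nl := by
    unfold dl
    rw [map_add, coeff_psL, coeff_C_mul]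
    refine H.Nl.add_mem (H.D_Nl _ (z1 0)) (H.Nl_mul _ hQ _ ?_)
    exact psR_dx z1 0
  refine H.pow_Nl _ (φ.R _ (G.I_le _ (hFc a ha 0).1)) c ?_
  have h3 : coeff 0 (H.wd (fun s => φ.f (ρ s)) [] (psF φ.f (F a)) ^ c) =
      φ.f (coeff 0 (F a)) ^ c := by
    show coeff 0 (psF φ.f (F a) ^ c) = _
    rw [ps_coeff_zero_pow, coeff_psF]
  rw [h1, h3] at h2
  exact h2

end AnOC
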