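import Pool.Agent.Helper23.OC.S10
import Pool.Agent.Helper79.G2.Root4

/-!
# Project OC: `ColK` for a class with the extension properties (assembly)
-/

set_option autoImplicit false

namespace AnOC
open AnWL

theorem col_of {M : Type} {xd : M → ℤ} {N : ℕ} [Finite M] (hxd : ∀ j, 0 < xd j)
    (K : Set (GA M xd N)) {κ : ℕ} {n₀ : ℤ} (hκ : 1 ≤ κ) (hK : EXT K κ) (hKo : EXTo K κ n₀)
    (hS : ∀ ℓ, SSb K ℓ (bb (Nat.card M) ℓ + κ)) (hP : IPos K) (hnt : ∀ G ∈ K, Nontrivial G.A) :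
    ColK K := by
  classical
  have := Fintype.ofFinite M
  rw [Nat.card_eq_fintype_card] at hS
  exact colK_of_nst hxd K hP fun e he he2 ℓ => Nst_all K hκ hK hKo hS hP hnt he2 ℓ

end AnOC
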