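import Pool.Agent.Helper57.G2.Fil

/-!
# Project G2 (MP_5f0082_gt): the filtration of the root node

`wo E r w Q`: the word `w` in the operators `E` (`none`) and `r t` (`some t`) applied to `Q`. `Fl.root`: the filtration
generated by all the words applied to `Q` (weight = length of the word) and by `Q⁻¹`, if the long words vanish and a power of
each nonempty word has a primitive.
-/

set_option autoImplicit false

namespace AnWL.Nd

variable {A : Type} [Ring A] [Algebra ℚ A] {M Γ : Type} [AddCommGroup Γ]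

/-- The words in `E` and the `r t`. -/
def wo (E : A →ₗ[ℚ] A) (r : M → A →ₗ[ℚ] A) : List (Option M) → A → A
  | [], a => a
  | none :: l, a => E (wo E r l a)
  | some t :: l, a => r t (wo E r l a)

/-- The degree of a word. -/
def wt (xx : Γ) (xd : M → Γ) : List (Option M) → Γ
  | [] => 0
  | none :: l => xx + wt xx xd l
  | some t :: l => xd t + wt xx xd l

section
variable {s : A →ₐ[ℚ] A} {Del E : A →ₗ[ℚ] A} {r : M → A →ₗ[ℚ] A}
  {one xx : Γ} {xd : M → Γ} {H : Γ → Submodule ℚ A} {Z : Subalgebra ℚ A}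

/-- The trivial filtration. -/
theorem Fl.triv (hDel : OD s Del) (hE : ED s E) (hr : ∀ t, OD s (r t))
    (H1 : (1 : A) ∈ H 0) :
    Fl s Del E (Set.univ : Set M) r one xx xd H Z
      (fun k γ => Submodule.span ℚ {x | x = 1 ∧ k = 0 ∧ γ = 0}) 1 := by
  have key : ∀ (p : A → Prop) (k : ℕ) (γ : Γ) (a : A), (k = 0 → γ = 0 → p 1) → p 0 →
      (∀ a b, p a → p b → p (a + b)) → (∀ (c : ℚ) a, p a → p (c • a)) →
      a ∈ Submodule.span ℚ {x : A | x = 1 ∧ k = 0 ∧ γ = 0} → p a := by
    intro p k γ a h1 h0 ha hc h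
    induction h using Submodule.span_induction with
    | mem x hx =>
      obtain ⟨rfl, h2, h3⟩ := hx
      exact h1 h2 h3
    | zero => exact h0
    | add x y _ _ hx hy => exact ha _ _ hx hy
    | smul c x _ hx => exact hc c _ hx
  refine ⟨?_, ?_, ?_, ?_, ?_, ?_, ?_, ?_, ?_, ?_⟩
  · intro k γ a ha
    exact key _ _ _ _ (fun h => absurd h (Nat.succ_ne_zero k)) (zero_mem _)
      (fun _ _ => add_mem) (fun c _ => Submodule.smul_mem _ c) ha
  · exact Submodule.subset_span ⟨rfl, rfl, rfl⟩
  · intro i j γ δ a b ha hb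
    refine key (fun a => a * b ∈ Submodule.span ℚ {x : A | x = 1 ∧ i + j = 0 ∧ γ + δ = 0}) _ _ _
      ?_ ?_ ?_ ?_ ha
    · rintro rfl rfl
      rw [one_mul, zero_add, zero_add]
      exact hb
    · rw [zero_mul]; exact zero_mem _
    · intro x y hx hy
      rw [add_mul]; exact add_mem hx hy
    · intro c x hx
      rw [smul_mul_assoc]; exact Submodule.smul_mem _ c hx
  · intro k γ a ha
    refine key (fun a => s a ∈ Submodule.span ℚ {x : A | x = 1 ∧ k = 0 ∧ γ = 0}) _ _ _
      ?_ ?_ ?_ ?_ ha
    · intro h1 h2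
      rw [map_one]
      exact Submodule.subset_span ⟨rfl, h1, h2⟩
    · rw [map_zero]; exact zero_mem _
    · intro x y hx hy
      rw [map_add]; exact add_mem hx hy
    · intro c x hx
      rw [map_smul]; exact Submodule.smul_mem _ c hx
  · intro k γ a ha
    exact key (fun a => a ∈ H γ) _ _ _ (fun _ h => by rw [h]; exact H1) (zero_mem _)
      (fun _ _ => add_mem) (fun c _ => Submodule.smul_mem _ c) ha
  · intro k γ a ha
    exact key (fun a => Del a = 0) _ _ _ (fun _ _ => hDel.one) (map_zero _)
      (fun x y hx hy => by rw [map_add, hx, hy, add_zero])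
      (fun c x hx => by rw [map_smul, hx, smul_zero]) ha
  · intro k γ a ha
    exact key (fun a => a ∈ Z) _ _ _ (fun _ _ => Z.one_mem) Z.zero_mem
      (fun _ _ => Z.add_mem) (fun c _ hx => Z.smul_mem hx c) ha
  · intro k γ a t _ ha
    have h0 : r t a = 0 := key (fun a => r t a = 0) _ _ _ (fun _ _ => (hr t).one) (map_zero _)
      (fun x y hx hy => by rw [map_add, hx, hy, add_zero])
      (fun c x hx => by rw [map_smul, hx, smul_zero]) ha
    rw [h0]; exact zero_mem _
  · intro k γ a ha
    have h0 : E a = 0 := key (fun a => E a = 0) _ _ _ (fun _ _ => hE.one) (map_zero _)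
      (fun x y hx hy => by rw [map_add, hx, hy, add_zero])
      (fun c x hx => by rw [map_smul, hx, smul_zero]) ha
    rw [h0]; exact zero_mem _
  · intro γ a ha
    have h0 : a = 0 := key (fun a => a = 0) _ _ _ (fun h => absurd h Nat.one_ne_zero) rfl
      (fun x y hx hy => by rw [hx, hy, add_zero])
      (fun c x hx => by rw [hx, smul_zero]) ha
    exact ⟨0, zero_mem _, zero_mem _, by rw [h0, map_zero]⟩

/-- The filtration of the root node. -/
theorem Fl.root [Finite M] (hs : Sg s) (hDel : OD s Del) (hE : ED s E) (hr : ∀ t, OD s (r t))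
    (mul_H : ∀ {g h : Γ} {a b : A}, a ∈ H g → b ∈ H h → a * b ∈ H (g + h))
    (s_H : ∀ {g : Γ} {a : A}, a ∈ H g → s a ∈ H g) (H1 : (1 : A) ∈ H 0)
    (s_Z : ∀ a ∈ Z, s a ∈ Z) {Q Qi : A} {q : Γ} (sQ : s Q = Q)
    (hwZ : ∀ w, wo E r w Q ∈ Z) (hwH : ∀ w, wo E r w Q ∈ H (q - wt xx xd w))
    (hws : ∀ w, s (wo E r w Q) = wo E r w Q ∨ s (wo E r w Q) = -wo E r w Q)
    (hwD : ∀ w, Del (wo E r w Q) = 0) (B : ℕ) (hB : ∀ w : List (Option M), B ≤ w.length →
      wo E r w Q = 0)
    (hc : ∀ w : List (Option M), w ≠ [] →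
      ∃ c : ℕ, ∃ z ∈ Z, z ∈ H (c • (q - wt xx xd w) - one) ∧ Del z = wo E r w Q ^ c)
    (hQi : Q * Qi = 1) (QiZ : Qi ∈ Z) (QiH : Qi ∈ H (-q)) :
    ∃ (F : ℕ → Γ → Submodule ℚ A) (K : ℕ),
      Fl s Del E (Set.univ : Set M) r one xx xd H Z F K ∧ Q ∈ F 0 q ∧ Qi ∈ F 0 (-q) := by
  have stage : ∀ j : ℕ, ∃ (F : ℕ → Γ → Submodule ℚ A) (K : ℕ),
      Fl s Del E (Set.univ : Set M) r one xx xd H Z F K ∧
        ∀ w : List (Option M), B - j ≤ w.length → wo E r w Q ∈ F w.length (q - wt xx xd w) := by
    intro j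
    induction j with
    | zero =>
      refine ⟨_, 1, Fl.triv hDel hE hr H1, fun w hw => ?_⟩
      rw [hB w hw]
      exact zero_mem _
    | succ j ih =>
      obtain ⟨F₁, K₁, h1, h2⟩ := ih
      by_cases hj : B - j = B - (j + 1)
      · exact ⟨F₁, K₁, h1, by rwa [← hj]⟩
      set n := B - (j + 1) with hn
      have hn1 : B - j = n + 1 := by omega
      rw [hn1] at h2
      have key : ∀ T : Finset (List (Option M)), (∀ w ∈ T, w.length = n) →
          ∃ (F' : ℕ → Γ → Submodule ℚ A) (K' : ℕ),
            Fl s Del E (Set.univ : Set M) r one xx xd H Z F' K' ∧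
            (∀ k γ a, a ∈ F₁ k γ → a ∈ F' k γ) ∧
            ∀ w ∈ T, wo E r w Q ∈ F' w.length (q - wt xx xd w) := by
        intro T
        classical
        induction T using Finset.induction_on with
        | empty =>
          intro _
          exact ⟨F₁, K₁, h1, fun _ _ _ ha => ha, fun w hw => absurd hw (Finset.notMem_empty w)⟩
        | insert w T hwT ihT =>
          intro hT
          obtain ⟨F₂, K₂, g1, g2, g3⟩ := ihT fun w' hw' => hT w' (Finset.mem_insert_of_mem hw')
          have hlen := hT w (Finset.mem_insert_self w T)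
          have hcc : ∃ c : ℕ, w.length = 0 ∨
              ∃ z ∈ Z, z ∈ H (c • (q - wt xx xd w) - one) ∧ Del z = wo E r w Q ^ c := by
            by_cases hw : w = []
            · exact ⟨0, Or.inl (by rw [hw]; rfl)⟩
            · obtain ⟨c, z, z1, z2, z3⟩ := hc w hw
              exact ⟨c, Or.inr ⟨z, z1, z2, z3⟩⟩
          obtain ⟨c, hcw⟩ := hcc
          have g4 := g1.adj hs hDel hE (fun t _ => hr t) mul_H s_H s_Z (ω := q - wt xx xd w)
            (κ := w.length) (c := c) (hws w) (hwZ w) (hwH w) (hwD w)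
            (by
              intro t _
              have h3 := g2 _ _ _ (h2 (some t :: w) (by rw [List.length_cons, hlen]))
              have e1 : q - wt xx xd (some t :: w) = q - wt xx xd w - xd t := by
                show q - (xd t + wt xx xd w) = _
                abel
              rw [e1, List.length_cons] at h3
              exact adj_base h3)
            (by
              have h3 := g2 _ _ _ (h2 (none :: w) (by rw [List.length_cons, hlen]))
              have e1 : q - wt xx xd (none :: w) = q - wt xx xd w - xx := by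
                show q - (xx + wt xx xd w) = _
                abel
              rw [e1, List.length_cons] at h3
              exact adj_base h3) hcw
          refine ⟨Nd.adj F₂ (wo E r w Q) (q - wt xx xd w) w.length, _, g4,
            fun _ _ _ ha => adj_base (g2 _ _ _ ha), fun w' hw' => ?_⟩
          rcases Finset.mem_insert.1 hw' with rfl | hw'
          · exact adj_self g1
          · exact adj_base (g3 w' hw')
      have hfin : {w : List (Option M) | w.length = n}.Finite := List.finite_length_eq _ n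
      obtain ⟨F₂, K₂, g1, g2, g3⟩ := key hfin.toFinset fun w hw => by simpa using hw
      refine ⟨F₂, K₂, g1, fun w hw => ?_⟩
      by_cases hwn : w.length = n
      · exact g3 w (by simpa using hwn)
      · exact g2 _ _ _ (h2 w (by omega))
  obtain ⟨F₁, K₁, h1, h2⟩ := stage B
  have hQ : Q ∈ F₁ 0 q := by
    have := h2 [] (by simp)
    have e1 : q - wt xx xd ([] : List (Option M)) = q := by
      show q - 0 = q
      rw [sub_zero]
    rwa [e1] at this
  have sQi : s Qi = Qi := hs.inv_even sQ hQi
  have DQ : Del Q = 0 := hwD []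
  have DQi : Del Qi = 0 := by rw [hDel.inv hs sQ hQi, DQ, mul_zero, zero_mul, neg_zero]
  have f4 := h1.adj hs hDel hE (fun t _ => hr t) mul_H s_H s_Z (ω := -q) (κ := 0) (c := 0)
    (w := Qi) (Or.inl sQi) QiZ QiH DQi
    (fun t _ => by
      have h1' : r t Qi = -(Qi ^ 2 * r t Q) := by
        rw [(hr t).inv hs sQ hQi, mul_assoc, ← hs.even_comm Qi _ sQi, ← mul_assoc, pow_two]
      rw [h1']
      refine neg_mem (adj_gen (h1.r_mem t (Set.mem_univ t) hQ) (by omega) ?_)
      rw [two_nsmul]; abel)
    (by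
      have h1' : E Qi = -(Qi ^ 2 * E Q) := by
        rw [hE.inv hs sQ hQi, mul_assoc, ← hs.even_comm Qi _ sQi, ← mul_assoc, pow_two]
      rw [h1']
      refine neg_mem (adj_gen (h1.E_mem hQ) (by omega) ?_)
      rw [two_nsmul]; abel)
    (Or.inl rfl)
  exact ⟨_, _, f4, adj_base hQ, adj_self h1⟩

end

end AnWL.Nd
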