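import Pool.Agent.Helper23.OC.D01
import Pool.Agent.Helper79.G2.Root1

/-!
# Project OC: the root node

`ND.Root ν`: all the odd directions, `φ = 1`, `P` and the `ρ j` regular and `x`-free, the brackets of the odd fields
constant. `ND.wo`: words in `E` (`none`) and the `r j` (`some j`). `root_ok`: it is a node; `root_fil`: it has a
filtration if the long words of `Q` vanish and a power of each nonempty even word of `Q` has a primitive.
-/

set_option autoImplicit false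

namespace AnOC
open AnWL.Nd

variable {M Γ : Type} [AddCommGroup Γ] {xd : M → Γ} {e d : Γ} {N : NR M Γ xd e d}

/-- The words in `E` and the `r j`. -/
def ND.wo (ν : ND N) : List (Option M) → N.A → N.A
  | [], a => a
  | none :: l, a => ν.E (ν.wo l a)
  | some j :: l, a => ν.r j (ν.wo l a)

/-- The root node, without `Q`. -/
structure ND.Root0 (ν : ND N) : Prop where
  L_univ : ∀ j, j ∈ ν.L
  P_s : N.s ν.P = -ν.P
  P_d : ν.P ∈ N.Hd (e + d)
  P_R : ν.P ∈ N.R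
  P_x : N.dx ν.P = 0
  P_D : N.D ν.P = 0
  φ1 : (ν.φ : N.A) = 1
  ρ_s : ∀ j, N.s (ν.ρ j) = -ν.ρ j
  ρ_d : ∀ j, ν.ρ j ∈ N.Hd (e - xd j)
  ρ_R : ∀ j, ν.ρ j ∈ N.R
  ρ_x : ∀ j, N.dx (ν.ρ j) = 0
  ρ_D : ∀ j, N.D (ν.ρ j) + N.pd j ν.P = 0
  ρ_c : ∀ i j, N.pd i (ν.ρ j) + N.pd j (ν.ρ i) = 0 ∨
    (e - xd i - xd j = 0 ∧ ∃ c : ℚ, N.pd i (ν.ρ j) + N.pd j (ν.ρ i) = c • (1 : N.A))

/-- The root node. -/
structure ND.Root (ν : ND N) : Prop extends ν.Root0 where
  Q_s : N.s (ν.Q : N.A) = ν.Q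
  Q_d : (ν.Q : N.A) ∈ N.Hd ν.q
  Q_I : (ν.Q : N.A) ∈ N.I
  ΔQ : ν.Δ (ν.Q : N.A) = 0

variable {ν : ND N}

private theorem rsg (N : NR M Γ xd e d) : Sg N.s := ⟨N.s_s, N.even_comm, N.odd_anti⟩

private theorem rD_od (N : NR M Γ xd e d) : OD N.s N.D := ⟨N.D_mul, N.s_D⟩

private theorem rpd_od (N : NR M Γ xd e d) (j : M) : OD N.s (N.pd j) := ⟨N.pd_mul j, N.s_pd j⟩

private theorem rdx_ed (N : NR M Γ xd e d) : ED N.s N.dx := ⟨N.dx_mul, N.s_dx⟩

theorem ND.Root0.inv1 (h : ν.Root0) : ((ν.φ⁻¹ : N.Aˣ) : N.A) = 1 := by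
  have h1 := Units.mul_inv ν.φ
  rwa [h.φ1, one_mul] at h1

theorem root_ok (h : ν.Root) : ν.Ok where
  P_s := h.P_s
  φ_s := by rw [h.φ1, map_one]
  ρ_s j _ := h.ρ_s j
  Q_s := h.Q_s
  P_d := h.P_d
  φ_d := by rw [h.φ1]; exact N.Hd_one
  ρ_d j _ := h.ρ_d j
  Q_d := h.Q_d
  Q_I := h.Q_I
  Q_lv j hj := absurd (h.L_univ j) hj
  P_fn := ⟨fun j hj => absurd (h.L_univ j) hj, 0, by rw [pow_zero, one_mul]; exact h.P_R⟩
  φ_fn := ⟨fun j hj => absurd (h.L_univ j) hj, 0, by rw [pow_zero, one_mul, h.φ1]; exact N.R.one_mem⟩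
  φ_fn' := ⟨fun j hj => absurd (h.L_univ j) hj, 0, by
    rw [pow_zero, one_mul, h.inv1]; exact N.R.one_mem⟩
  ρ_fn j _ := ⟨fun j hj => absurd (h.L_univ j) hj, 0, by rw [pow_zero, one_mul]; exact h.ρ_R j⟩
  ΔP := by
    show N.D ν.P + ν.P * N.dx ν.P = 0
    rw [h.P_D, h.P_x, mul_zero, add_zero]
  Δφ := by
    show N.D (ν.φ : N.A) + ν.P * N.dx (ν.φ : N.A) = (ν.φ : N.A) * N.dx ν.P
    rw [h.φ1, (rD_od N).one, (rdx_ed N).one, h.P_x, mul_zero, mul_zero, add_zero]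
  Δρ j _ := by
    show N.D (ν.ρ j) + ν.P * N.dx (ν.ρ j) = -(N.pd j ν.P + ν.ρ j * N.dx ν.P)
    rw [h.ρ_x, h.P_x, mul_zero, mul_zero, add_zero, add_zero]
    exact eq_neg_of_add_eq_zero_left (h.ρ_D j)
  ΔQ := h.ΔQ

/-- The functions with poles along `Q`. -/
def Zs (ν : ND N) (hs : N.s (ν.Q : N.A) = ν.Q) (hR : (ν.Q : N.A) ∈ N.R) : Subalgebra ℚ N.A where
  carrier := {a | ∃ c : ℕ, (ν.Q : N.A) ^ c * a ∈ N.R}
  mul_mem' := by
    rintro a b ⟨c, hc⟩ ⟨c', hc'⟩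
    refine ⟨c + c', ?_⟩
    have h1 : N.s ((ν.Q : N.A) ^ c') = (ν.Q : N.A) ^ c' := by rw [map_pow, hs]
    have h2 : (ν.Q : N.A) ^ (c + c') * (a * b) = (ν.Q : N.A) ^ c * a * ((ν.Q : N.A) ^ c' * b) := by
      rw [pow_add, mul_assoc, mul_assoc, ← mul_assoc ((ν.Q : N.A) ^ c') a b, N.even_comm _ a h1,
        mul_assoc]
    rw [h2]
    exact N.R.mul_mem hc hc'
  add_mem' := by
    rintro a b ⟨c, hc⟩ ⟨c', hc'⟩
    refine ⟨c + c', ?_⟩
    rw [mul_add]
    refine N.R.add_mem ?_ ?_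
    · rw [add_comm c c', pow_add, mul_assoc]
      exact N.R.mul_mem (N.R.pow_mem hR _) hc
    · rw [pow_add, mul_assoc]
      exact N.R.mul_mem (N.R.pow_mem hR _) hc'
  algebraMap_mem' r := ⟨0, by rw [pow_zero, one_mul]; exact N.R.algebraMap_mem r⟩

theorem Root.Q_R (h : ν.Root) : (ν.Q : N.A) ∈ N.R := N.I_le _ h.Q_I

section ops
variable (ν)

private def rΔ : N.A →ₗ[ℚ] N.A := N.D + (LinearMap.mulLeft ℚ ν.P).comp N.dx

private def rr (j : M) : N.A →ₗ[ℚ] N.A := N.pd j + (LinearMap.mulLeft ℚ (ν.ρ j)).comp N.dx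

private def rE : N.A →ₗ[ℚ] N.A := (LinearMap.mulLeft ℚ (ν.φ : N.A)).comp N.dx

private theorem wo_eq (w : List (Option M)) (a : N.A) : wo (rE ν) (rr ν) w a = ν.wo w a := by
  induction w with
  | nil => rfl
  | cons o w ih =>
    cases o with
    | none => show (ν.φ : N.A) * N.dx _ = (ν.φ : N.A) * N.dx _; rw [ih]
    | some j =>
      show N.pd j _ + ν.ρ j * N.dx _ = N.pd j _ + ν.ρ j * N.dx _
      rw [ih]

end ops

theorem wo_R (h : ν.Root0) (w : List (Option M)) {a : N.A} (ha : a ∈ N.R) : ν.wo w a ∈ N.R := by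
  induction w with
  | nil => exact ha
  | cons o w ih =>
    cases o with
    | none =>
      show (ν.φ : N.A) * N.dx _ ∈ N.R
      rw [h.φ1, one_mul]
      exact N.dx_R _ ih
    | some j => exact N.R.add_mem (N.pd_R j _ ih) (N.R.mul_mem (h.ρ_R j) (N.dx_R _ ih))

theorem wo_I (h : ν.Root0) (w : List (Option M)) {a : N.A} (ha : a ∈ N.I) : ν.wo w a ∈ N.I := by
  induction w with
  | nil => exact ha
  | cons o w ih =>
    cases o with
    | none =>
      show (ν.φ : N.A) * N.dx _ ∈ N.I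
      rw [h.φ1, one_mul]
      exact N.dx_I _ ih
    | some j => exact N.I.add_mem (N.pd_I j _ ih) (N.mul_I _ (h.ρ_R j) _ (N.dx_I _ ih))

theorem wo_Hd (h : ν.Root0) (w : List (Option M)) {g : Γ} {a : N.A} (ha : a ∈ N.Hd g) :
    ν.wo w a ∈ N.Hd (g - wt e xd w) := by
  induction w with
  | nil =>
    show a ∈ N.Hd (g - 0)
    rwa [sub_zero]
  | cons o w ih =>
    cases o with
    | none =>
      show (ν.φ : N.A) * N.dx _ ∈ N.Hd (g - (e + wt e xd w))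
      rw [h.φ1, one_mul]
      have := N.Hd_dx _ _ ih
      rwa [sub_sub, add_comm _ e] at this
    | some j =>
      show N.pd j _ + ν.ρ j * N.dx _ ∈ N.Hd (g - (xd j + wt e xd w))
      have h1 := N.Hd_pd _ j _ ih
      have h2 := N.Hd_mul _ _ _ _ (h.ρ_d j) (N.Hd_dx _ _ ih)
      have e1 : g - wt e xd w - xd j = g - (xd j + wt e xd w) := by abel
      have e2 : e - xd j + (g - wt e xd w - e) = g - (xd j + wt e xd w) := by abel
      rw [e1] at h1
      rw [e2] at h2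
      exact (N.Hd _).add_mem h1 h2

theorem wo_s (h : ν.Root0) (w : List (Option M)) {a : N.A} (ha : N.s a = a) :
    N.s (ν.wo w a) = (-1 : ℚ) ^ (w.countP Option.isSome) • ν.wo w a := by
  induction w with
  | nil =>
    show N.s a = (-1 : ℚ) ^ 0 • a
    rw [pow_zero, one_smul, ha]
  | cons o w ih =>
    cases o with
    | none =>
      rw [List.countP_cons_of_neg (by simp)]
      show N.s ((ν.φ : N.A) * N.dx _) = _ • ((ν.φ : N.A) * N.dx _)
      rw [map_mul, h.φ1, map_one, N.s_dx, ih, map_smul, mul_smul_comm]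
    | some j =>
      rw [List.countP_cons_of_pos (by simp), pow_succ, mul_neg_one, neg_smul]
      show N.s (N.pd j _ + ν.ρ j * N.dx _) = -(_ • (N.pd j _ + ν.ρ j * N.dx _))
      rw [map_add, map_mul, N.s_pd, N.s_dx, ih, h.ρ_s, map_smul, map_smul, smul_add, mul_smul_comm,
        neg_mul, neg_add, smul_neg]

theorem wo_Δ (h : ν.Root0) (w : List (Option M)) {a : N.A} (ha : ν.Δ a = 0) :
    ν.Δ (ν.wo w a) = 0 := by
  induction w with
  | nil => exact ha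
  | cons o w ih =>
    have ih' : N.D (ν.wo w a) + ν.P * N.dx (ν.wo w a) = 0 := ih
    cases o with
    | none =>
      show N.D ((ν.φ : N.A) * N.dx _) + ν.P * N.dx ((ν.φ : N.A) * N.dx _) = 0
      rw [h.φ1, one_mul]
      have h1 := congrArg N.dx ih'
      rw [map_add, N.dx_D, N.dx_mul, h.P_x, zero_mul, zero_add, map_zero] at h1
      exact h1
    | some j =>
      show N.D (N.pd j _ + ν.ρ j * N.dx _) + ν.P * N.dx (N.pd j _ + ν.ρ j * N.dx _) = 0
      have h1 := congrArg N.dx ih'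
      rw [map_add, N.dx_D, N.dx_mul, h.P_x, zero_mul, zero_add, map_zero] at h1
      have h2 := congrArg (N.pd j) ih'
      rw [map_add, N.pd_D, N.pd_mul, h.P_s, map_zero] at h2
      have h3 : ν.P * ν.ρ j = -(ν.ρ j * ν.P) := N.odd_anti _ _ h.P_s (h.ρ_s j)
      have h4 : N.D (ν.ρ j) = -N.pd j ν.P := eq_neg_of_add_eq_zero_left (h.ρ_D j)
      have h5 : N.D (N.pd j (ν.wo w a)) = -N.pd j (N.D (ν.wo w a)) := by
        rw [N.pd_D, neg_neg]
      rw [map_add, N.D_mul, h.ρ_s, map_add, N.dx_mul, h.ρ_x, zero_mul, zero_add, N.dx_pd, mul_add, h5,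
        ← mul_assoc ν.P, h3, h4]
      have e1 : -N.pd j (N.D (ν.wo w a)) + (-N.pd j ν.P * N.dx (ν.wo w a) +
          -ν.ρ j * N.D (N.dx (ν.wo w a))) + (ν.P * N.pd j (N.dx (ν.wo w a)) +
          -(ν.ρ j * ν.P) * N.dx (N.dx (ν.wo w a))) =
          -(N.pd j (N.D (ν.wo w a)) + (N.pd j ν.P * N.dx (ν.wo w a) +
            -ν.P * N.pd j (N.dx (ν.wo w a)))) -
          ν.ρ j * (N.D (N.dx (ν.wo w a)) + ν.P * N.dx (N.dx (ν.wo w a))) := by noncomm_ring
      rw [e1, h1, mul_zero, sub_zero]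
      have h6 : N.pd j (N.D (ν.wo w a)) = -N.D (N.pd j (ν.wo w a)) := N.pd_D j _
      rw [h6, h2, neg_zero]

theorem root_fil [Finite M] (h : ν.Root) (B : ℕ)
    (hB : ∀ w : List (Option M), B ≤ w.length → ν.wo w (ν.Q : N.A) = 0)
    (hc : ∀ w : List (Option M), w ≠ [] → Even (w.countP Option.isSome) →
      ∃ (c : ℕ) (z : N.A), ν.Fn z ∧ z ∈ N.Hd (c • (ν.q - wt e xd w) - d) ∧
        ν.Δ z = ν.wo w (ν.Q : N.A) ^ c) :
    ∃ F : ℕ → Γ → Submodule ℚ N.A, ν.Fil F := by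
  have hs := rsg N
  have hQR : (ν.Q : N.A) ∈ N.R := N.I_le _ h.Q_I
  have hDel : OD N.s (rΔ ν) := (rD_od N).add_smul_ED hs (rdx_ed N) h.P_s
  have hE : ED N.s (rE ν) := (rdx_ed N).smul hs (by rw [h.φ1, map_one])
  have hr : ∀ t, OD N.s (rr ν t) := fun t => (rpd_od N t).add_smul_ED hs (rdx_ed N) (h.ρ_s t)
  have hZ : ∀ a, a ∈ Zs ν h.Q_s hQR → ν.Fn a := fun a ha =>
    ⟨fun j hj => absurd (h.L_univ j) hj, ha⟩
  have sQi : N.s ((ν.Q⁻¹ : N.Aˣ) : N.A) = ((ν.Q⁻¹ : N.Aˣ) : N.A) :=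
    hs.inv_even h.Q_s (Units.mul_inv ν.Q)
  obtain ⟨F, K, hF, hQ, hQi⟩ := Fl.root (s := N.s) (Del := rΔ ν) (E := rE ν) (r := rr ν)
    (one := d) (xx := e) (xd := xd) (H := N.Hd) (Z := Zs ν h.Q_s hQR) (Q := (ν.Q : N.A))
    (Qi := ((ν.Q⁻¹ : N.Aˣ) : N.A)) (q := ν.q) hs hDel hE hr (fun ha hb => N.Hd_mul _ _ _ _ ha hb)
    (fun ha => N.Hd_s _ _ ha) N.Hd_one
    (by
      rintro a ⟨c, hc⟩
      refine ⟨c, ?_⟩
      have := N.s_R _ hc
      rwa [map_mul, map_pow, h.Q_s] at this)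
    h.Q_s
    (fun w => by
      rw [wo_eq]
      exact ⟨0, by rw [pow_zero, one_mul]; exact wo_R h.toRoot0 w hQR⟩)
    (fun w => by rw [wo_eq]; exact wo_Hd h.toRoot0 w h.Q_d)
    (fun w => by
      rw [wo_eq, wo_s h.toRoot0 w h.Q_s]
      rcases neg_one_pow_eq_or ℚ (w.countP Option.isSome) with h8 | h8
      · left; rw [h8, one_smul]
      · right; rw [h8, neg_one_smul])
    (fun w => by rw [wo_eq]; exact wo_Δ h.toRoot0 w h.ΔQ)
    B (fun w hw => by rw [wo_eq]; exact hB w hw)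
    (fun w hw => by
      rw [wo_eq]
      rcases Nat.even_or_odd (w.countP Option.isSome) with hev | hod
      · obtain ⟨c, z, z1, z2, z3⟩ := hc w hw hev
        exact ⟨c, z, z1.2, z2, z3⟩
      · refine ⟨2, 0, Subalgebra.zero_mem _, Submodule.zero_mem _, ?_⟩
        have h8 : N.s (ν.wo w (ν.Q : N.A)) = -ν.wo w (ν.Q : N.A) := by
          rw [wo_s h.toRoot0 w h.Q_s, hod.neg_one_pow, neg_one_smul]
        rw [map_zero, pow_two, hs.odd_sq h8])
    (Units.mul_inv ν.Q)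
    ⟨1, by rw [pow_one, Units.mul_inv]; exact N.R.one_mem⟩
    (N.Hd_inv _ _ h.Q_d)
  refine ⟨F, ?_⟩
  exact
    { hd := fun k g a ha => hF.H_mem ha
      fn := fun k g a ha => hZ a (hF.Z_mem ha)
      cl := fun k g a ha => hF.D_eq ha
      mono := fun k g a ha => hF.anti ha
      mul := fun k l g h' a ha b hb => hF.mul ha hb
      s_mem := fun k g a ha => hF.s_mem ha
      r_mem := fun j _ k g a ha => hF.r_mem j (Set.mem_univ j) ha
      E_mem := fun k g a ha => hF.E_mem ha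
      one := hF.one_mem
      g_mem := by
        intro i _ j _
        have e1 : ν.g i j = N.pd i (ν.ρ j) + N.pd j (ν.ρ i) := by
          show ((ν.φ⁻¹ : N.Aˣ) : N.A) * (N.pd i (ν.ρ j) + ν.ρ i * N.dx (ν.ρ j) +
            (N.pd j (ν.ρ i) + ν.ρ j * N.dx (ν.ρ i))) = _
          rw [h.inv1, one_mul, h.ρ_x, h.ρ_x, mul_zero, mul_zero, add_zero, add_zero]
        rw [e1]
        rcases h.ρ_c i j with h0 | ⟨h0, c, h1⟩
        · rw [h0]; exact zero_mem _
        · rw [h1, h0]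
          exact Submodule.smul_mem _ c hF.one_mem
      h_mem := by
        intro j _
        have e1 : ν.h j = 0 := by
          show ((ν.φ⁻¹ : N.Aˣ) : N.A) * (N.pd j (ν.φ : N.A) + ν.ρ j * N.dx (ν.φ : N.A) -
            (ν.φ : N.A) * N.dx (ν.ρ j)) = _
          rw [h.φ1, h.ρ_x, (rpd_od N j).one, (rdx_ed N).one]
          simp
        rw [e1]; exact zero_mem _
      ex := ⟨K, fun g a ha => by
        obtain ⟨z, z1, z2, z3⟩ := hF.ex ha
        exact ⟨z, hZ z z1, z2, z3⟩⟩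
      Q_mem := hQ
      Q_mem' := hQi }

end AnOC
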