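import Pool.Agent.Helper23.OC.D03
import Pool.Agent.Helper79.G2.Root2

/-!
# Project OC: from the node theorem `Nst` to `ColK`

`CD`: the hypotheses of `ColK`, stable under morphisms. `Kil`: a power of the word `w` in the frames, applied to `F a`, is `Δ` of
a regular series. `colK_of_nst`: the words are killed in the order of decreasing length; the word `w` with the theorem
`Nst` for the root node with `Q = w F a` (family with one member).
-/

set_option autoImplicit false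

namespace AnOC
open AnWL AnWL.Nd PowerSeries

variable {M : Type} {xd : M → ℤ} {N : ℕ}

/-- The hypotheses of `ColK`. -/
structure CD (G : GA M xd N) (dx : ℤ) (Q : G.A) (ρ : M → G.A) {α : Type} (E : Finset α)
    (F : α → PowerSeries G.A) (f : α → ℤ) : Prop where
  Q_I : Q ∈ G.I
  Q_d : Q ∈ G.Hm (dx + 1)
  Q_D : G.D Q = 0
  ρ_R : ∀ s, ρ s ∈ G.R
  ρ_d : ∀ s, ρ s ∈ G.Hm (dx - xd s)
  ρ_D : ∀ s, G.D (ρ s) + G.pd s Q = 0
  ρ_c : ∀ s t, ∃ c : ℚ, G.pd s (ρ t) + G.pd t (ρ s) = algebraMap ℚ G.A c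
  f_e : ∀ a ∈ E, Even (f a)
  F_c : ∀ a ∈ E, ∀ k : ℕ, coeff k (F a) ∈ G.I ∧ coeff k (F a) ∈ G.Hm (f a - k * dx)
  F_D : ∀ a ∈ E, ∀ k : ℕ, G.D (coeff k (F a)) + ((k + 1 : ℕ) : ℚ) • (Q * coeff (k + 1) (F a)) = 0
  dich : ∀ a ∈ E, ∀ w : List (Option M), Even (w.countP Option.isSome) →
    IsNilpotent (G.wd ρ w (F a)) ∨ IsUnit (coeff 0 (G.wd ρ w (F a)))

section maps
variable {G H : GA M xd N} (φ : Mor G H)

theorem psF_C (a : G.A) : psF φ.f (PowerSeries.C a) = PowerSeries.C (φ.f a) := by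
  ext n
  rw [coeff_psF, coeff_C, coeff_C]
  split_ifs
  · rfl
  · exact map_zero φ.f

theorem psF_wd (ρ : M → G.A) (w : List (Option M)) (F : PowerSeries G.A) :
    psF φ.f (G.wd ρ w F) = H.wd (fun s => φ.f (ρ s)) w (psF φ.f F) := by
  induction w with
  | nil => rfl
  | cons o w ih =>
    cases o with
    | none =>
      show psF φ.f (psdx G.A (G.wd ρ w F)) = psdx H.A (H.wd (fun s => φ.f (ρ s)) w (psF φ.f F))
      rw [← psF_psdx, ih]
    | some s =>
      show psF φ.f (psL (G.pd s) (G.wd ρ w F) + PowerSeries.C (ρ s) * psdx G.A (G.wd ρ w F)) =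
        psL (H.pd s) (H.wd (fun s => φ.f (ρ s)) w (psF φ.f F)) +
          PowerSeries.C (φ.f (ρ s)) * psdx H.A (H.wd (fun s => φ.f (ρ s)) w (psF φ.f F))
      rw [map_add, map_mul, psF_C, ← ih, psF_psdx, psF_psL φ.f (G.pd s) (H.pd s) (φ.pd s)]

theorem CD.map {dx : ℤ} {Q : G.A} {ρ : M → G.A} {α : Type} {E : Finset α}
    {F : α → PowerSeries G.A} {f : α → ℤ} (h : CD G dx Q ρ E F f) :
    CD H dx (φ.f Q) (fun s => φ.f (ρ s)) E (fun a => psF φ.f (F a)) f where
  Q_I := φ.I _ h.Q_I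
  Q_d := Mor_Hm G φ h.Q_d
  Q_D := by rw [φ.D, h.Q_D, map_zero]
  ρ_R s := φ.R _ (h.ρ_R s)
  ρ_d s := Mor_Hm G φ (h.ρ_d s)
  ρ_D s := by
    show H.D (φ.f (ρ s)) + H.pd s (φ.f Q) = 0
    rw [φ.D, φ.pd, ← map_add, h.ρ_D, map_zero]
  ρ_c s t := by
    obtain ⟨c, hc⟩ := h.ρ_c s t
    refine ⟨c, ?_⟩
    show H.pd s (φ.f (ρ t)) + H.pd t (φ.f (ρ s)) = _
    rw [φ.pd, φ.pd, ← map_add, hc, AlgHom.commutes]
  f_e := h.f_e
  F_c a ha k := by
    show coeff k (psF φ.f (F a)) ∈ H.I ∧ coeff k (psF φ.f (F a)) ∈ H.Hm (f a - k * dx)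
    rw [coeff_psF]
    exact ⟨φ.I _ (h.F_c a ha k).1, Mor_Hm G φ (h.F_c a ha k).2⟩
  F_D a ha k := by
    show H.D (coeff k (psF φ.f (F a))) +
      ((k + 1 : ℕ) : ℚ) • (φ.f Q * coeff (k + 1) (psF φ.f (F a))) = 0
    rw [coeff_psF, coeff_psF, φ.D, ← map_mul, ← map_smul, ← map_add, h.F_D a ha k, map_zero]
  dich a ha w hw := by
    show IsNilpotent (H.wd (fun s => φ.f (ρ s)) w (psF φ.f (F a))) ∨
      IsUnit (coeff 0 (H.wd (fun s => φ.f (ρ s)) w (psF φ.f (F a))))
    rw [← psF_wd]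
    rcases h.dich a ha w hw with h1 | h1
    · exact Or.inl (h1.map (psF φ.f))
    · refine Or.inr ?_
      rw [coeff_psF]
      exact h1.map φ.f

/-- `Δ` on the power series. -/
noncomputable def dl (G : GA M xd N) (Q : G.A) (z : PowerSeries G.A) : PowerSeries G.A :=
  psL G.D z + PowerSeries.C Q * psdx G.A z

theorem psF_dl (Q : G.A) (z : PowerSeries G.A) :
    psF φ.f (dl G Q z) = dl H (φ.f Q) (psF φ.f z) := by
  unfold dl
  rw [map_add, map_mul, psF_C, psF_psdx, psF_psL φ.f G.D H.D φ.D]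

/-- The word `w` of `F a` is killed. -/
def Kil (G : GA M xd N) (dx : ℤ) (Q : G.A) (ρ : M → G.A) (F : PowerSeries G.A) (g : ℤ)
    (w : List (Option M)) : Prop :=
  ∃ (c : ℕ) (z : PowerSeries G.A), z ∈ psR G.R ∧
    (∀ n : ℕ, coeff n z ∈ G.Hm (c * (g - wt dx xd w) - 1 - n * dx)) ∧
    dl G Q z = G.wd ρ w F ^ c

theorem Kil.map {dx : ℤ} {Q : G.A} {ρ : M → G.A} {F : PowerSeries G.A} {g : ℤ}
    {w : List (Option M)} (h : Kil G dx Q ρ F g w) :
    Kil H dx (φ.f Q) (fun s => φ.f (ρ s)) (psF φ.f F) g w := by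
  obtain ⟨c, z, z1, z2, z3⟩ := h
  refine ⟨c, psF φ.f z, ?_, ?_, ?_⟩
  · intro n
    rw [coeff_psF]
    exact φ.R _ (z1 n)
  · intro n
    rw [coeff_psF]
    exact Mor_Hm G φ (z2 n)
  · rw [← psF_dl, z3, map_pow, psF_wd]

theorem kil_zero {dx : ℤ} {Q : G.A} {ρ : M → G.A} {F : PowerSeries G.A} {g : ℤ}
    {w : List (Option M)} (c : ℕ) (h : G.wd ρ w F ^ c = 0) : Kil G dx Q ρ F g w := by
  refine ⟨c, 0, (psR G.R).zero_mem, ?_, ?_⟩
  · intro n
    rw [map_zero]
    exact (G.Hm _).zero_mem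
  · rw [h]
    unfold dl
    rw [map_zero, map_zero, mul_zero, add_zero]

end maps

theorem wd_append (G : GA M xd N) (ρ : M → G.A) (w w' : List (Option M)) (F : PowerSeries G.A) :
    G.wd ρ (w ++ w') F = G.wd ρ w (G.wd ρ w' F) := by
  induction w with
  | nil => rfl
  | cons o w ih =>
    cases o with
    | none =>
      show psdx G.A (G.wd ρ (w ++ w') F) = psdx G.A (G.wd ρ w (G.wd ρ w' F))
      rw [ih]
    | some s =>
      show psL (G.pd s) (G.wd ρ (w ++ w') F) + PowerSeries.C (ρ s) * psdx G.A (G.wd ρ (w ++ w') F) =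
        psL (G.pd s) (G.wd ρ w (G.wd ρ w' F)) +
          PowerSeries.C (ρ s) * psdx G.A (G.wd ρ w (G.wd ρ w' F))
      rw [ih]

theorem wt_append {Γ : Type} [AddCommGroup Γ] (dx : Γ) (xd : M → Γ) (w w' : List (Option M)) :
    wt dx xd (w ++ w') = wt dx xd w + wt dx xd w' := by
  induction w with
  | nil => show wt dx xd w' = 0 + wt dx xd w'; rw [zero_add]
  | cons o w ih =>
    cases o with
    | none =>
      show dx + wt dx xd (w ++ w') = dx + wt dx xd w + wt dx xd w'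
      rw [ih, add_assoc]
    | some s =>
      show xd s + wt dx xd (w ++ w') = xd s + wt dx xd w + wt dx xd w'
      rw [ih, add_assoc]

theorem wt_ge {dx : ℤ} {xd : M → ℤ} (hdx : 2 ≤ dx) (hxd : ∀ j, 0 < xd j) (w : List (Option M)) :
    (w.length : ℤ) ≤ wt dx xd w := by
  induction w with
  | nil => exact le_refl (0 : ℤ)
  | cons o w ih =>
    rw [List.length_cons]
    cases o with
    | none =>
      show ((w.length + 1 : ℕ) : ℤ) ≤ dx + wt dx xd w
      push_cast
      omega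
    | some s =>
      show ((w.length + 1 : ℕ) : ℤ) ≤ xd s + wt dx xd w
      have := hxd s
      push_cast
      omega

/-- Nonzero constants have degree `0`. -/
theorem Hm_one_zero (G : GA M xd N) {g : ℤ} (h : (1 : G.A) ∈ G.Hm g) : g = 0 ∨ (1 : G.A) = 0 := by
  have h1 : (1 : G.A) = ((2 : ℚ) ^ g) • (1 : G.A) := by
    rw [← h.1, map_one]
  by_cases hg : g = 0
  · exact Or.inl hg
  right
  have h2 : (1 - (2 : ℚ) ^ g) • (1 : G.A) = 0 := by
    rw [sub_smul, one_smul, ← h1, sub_self]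
  rcases smul_eq_zero.1 h2 with h3 | h3
  · exfalso
    have h4 : (2 : ℚ) ^ g = 1 := by linarith
    rcases lt_or_gt_of_ne hg with h5 | h5
    · have := zpow_lt_one_of_neg₀ (by norm_num : (1 : ℚ) < 2) h5
      linarith
    · have := one_lt_zpow₀ (by norm_num : (1 : ℚ) < 2) h5
      linarith
  · exact h3

section coeffs
variable {G : GA M xd N}

theorem psL_C (f : G.A →ₗ[ℚ] G.A) (a : G.A) :
    psL f (PowerSeries.C a) = PowerSeries.C (f a) := by
  ext n
  rw [coeff_psL, coeff_C, coeff_C]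
  split_ifs
  · rfl
  · exact map_zero f

theorem psH_C (f : G.A →ₐ[ℚ] G.A) (a : G.A) :
    psH f (PowerSeries.C a) = PowerSeries.C (f a) := by
  ext n
  rw [coeff_psH, coeff_C, coeff_C]
  split_ifs
  · rfl
  · exact map_zero f

theorem psdx_C (a : G.A) : psdx G.A (PowerSeries.C a) = 0 := by
  ext n
  rw [coeff_psdx, coeff_C, if_neg (Nat.succ_ne_zero n), smul_zero, map_zero]

theorem C_mem (S : ℕ → Submodule ℚ G.A) {a : G.A} (ha : a ∈ S 0) (n : ℕ) :
    coeff n (PowerSeries.C a) ∈ S n := by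
  rw [coeff_C]
  split_ifs with h
  · rwa [h]
  · exact zero_mem _

end coeffs

variable {G : GA M xd N} {dx : ℤ} {Q : G.A} {ρ : M → G.A} {α : Type} {E : Finset α}
  {F : α → PowerSeries G.A} {f : α → ℤ}

/-- The unit of the product ring over `Unit`. -/
noncomputable def uu (G : GA M xd N) (e : ℤ) (he : Even e) (u : (PowerSeries G.A)ˣ) :
    (psp (fun _ : Unit => G) e he).Aˣ where
  val := fun _ => (u : PowerSeries G.A)
  inv := fun _ => ((u⁻¹ : (PowerSeries G.A)ˣ) : PowerSeries G.A)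
  val_inv := funext fun _ => Units.mul_inv u
  inv_val := funext fun _ => Units.inv_mul u

/-- The root node. -/
noncomputable def rn [Fintype M] (G : GA M xd N) (e : ℤ) (he : Even e) (Q : G.A) (ρ : M → G.A)
    (u : (PowerSeries G.A)ˣ) (q : ℤ) : ND (psp (fun _ : Unit => G) e he) where
  L := Finset.univ
  P := fun _ => PowerSeries.C Q
  φ := 1
  ρ := fun s _ => PowerSeries.C (ρ s)
  Q := uu G e he u
  q := fun _ => q

theorem rn_wo [Fintype M] (e : ℤ) (he : Even e) (u : (PowerSeries G.A)ˣ) (q : ℤ)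
    (w : List (Option M)) (a : PowerSeries G.A) :
    (rn G e he Q ρ u q).wo w (fun _ => a) = fun _ => G.wd ρ w a := by
  induction w with
  | nil => rfl
  | cons o w ih =>
    cases o with
    | none =>
      show (1 : (psp (fun _ : Unit => G) e he).A) * (psp (fun _ : Unit => G) e he).dx
        ((rn G e he Q ρ u q).wo w (fun _ => a)) = _
      rw [ih, one_mul]
      rfl
    | some s =>
      show (psp (fun _ : Unit => G) e he).pd s ((rn G e he Q ρ u q).wo w (fun _ => a)) +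
        _ * (psp (fun _ : Unit => G) e he).dx ((rn G e he Q ρ u q).wo w (fun _ => a)) = _
      rw [ih]
      rfl

theorem rn_Δ [Fintype M] (e : ℤ) (he : Even e) (u : (PowerSeries G.A)ˣ) (q : ℤ)
    (a : PowerSeries G.A) :
    (rn G e he Q ρ u q).Δ (fun _ => a) = fun _ => dl G Q a := rfl

theorem CD.dl_F (h : CD G dx Q ρ E F f) {a : α} (ha : a ∈ E) : dl G Q (F a) = 0 := by
  ext n
  unfold dl
  rw [map_add, coeff_psL, coeff_C_mul, coeff_psdx, mul_smul_comm, map_zero]
  exact h.F_D a ha n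

/-- The words of `F a`: homogeneous series with coefficients in `I`. -/
theorem wd_c (h : CD G dx Q ρ E F f) {X : PowerSeries G.A} {g : ℤ}
    (hX : ∀ k : ℕ, coeff k X ∈ G.I ∧ coeff k X ∈ G.Hm (g - k * dx)) (w : List (Option M)) (k : ℕ) :
    coeff k (G.wd ρ w X) ∈ G.I ∧ coeff k (G.wd ρ w X) ∈ G.Hm (g - wt dx xd w - k * dx) := by
  induction w generalizing k with
  | nil =>
    show coeff k X ∈ G.I ∧ coeff k X ∈ G.Hm (g - 0 - k * dx)
    rw [sub_zero]
    exact hX k
  | cons o w ih =>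
    have h1 : coeff k (psdx G.A (G.wd ρ w X)) ∈ G.I ∧
        coeff k (psdx G.A (G.wd ρ w X)) ∈ G.Hm (g - wt dx xd w - dx - k * dx) := by
      rw [coeff_psdx]
      refine ⟨G.I.smul_mem _ (ih (k + 1)).1, ?_⟩
      have := (G.Hm _).smul_mem (((k + 1 : ℕ) : ℚ)) (ih (k + 1)).2
      have e1 : g - wt dx xd w - ((k + 1 : ℕ) : ℤ) * dx = g - wt dx xd w - dx - k * dx := by
        push_cast; ring
      rwa [e1] at this
    cases o with
    | none =>
      show coeff k (psdx G.A (G.wd ρ w X)) ∈ G.I ∧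
        coeff k (psdx G.A (G.wd ρ w X)) ∈ G.Hm (g - (dx + wt dx xd w) - k * dx)
      have e1 : g - (dx + wt dx xd w) - k * dx = g - wt dx xd w - dx - k * dx := by ring
      rw [e1]
      exact h1
    | some s =>
      show coeff k (psL (G.pd s) (G.wd ρ w X) + PowerSeries.C (ρ s) * psdx G.A (G.wd ρ w X)) ∈ G.I ∧
        coeff k (psL (G.pd s) (G.wd ρ w X) + PowerSeries.C (ρ s) * psdx G.A (G.wd ρ w X)) ∈
          G.Hm (g - (xd s + wt dx xd w) - k * dx)
      rw [map_add, coeff_psL, coeff_C_mul]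
      refine ⟨G.I.add_mem (G.pd_I s _ (ih k).1) (G.mul_I _ (h.ρ_R s) _ h1.1), ?_⟩
      have e1 : g - (xd s + wt dx xd w) - k * dx = g - wt dx xd w - k * dx - xd s := by ring
      have e2 : g - (xd s + wt dx xd w) - k * dx = dx - xd s + (g - wt dx xd w - dx - k * dx) := by
        ring
      refine (G.Hm _).add_mem ?_ ?_
      · rw [e1]
        exact Hm_pd G (ih k).2 s
      · rw [e2]
        exact Hm_mul G (h.ρ_d s) h1.2

/-- Long words vanish. -/
theorem wd_long {K : Set (GA M xd N)} (hI : IPos K) (hG : G ∈ K) (hdx : 2 ≤ dx)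
    (hxd : ∀ j, 0 < xd j) (h : CD G dx Q ρ E F f) {X : PowerSeries G.A} {g : ℤ}
    (hX : ∀ k : ℕ, coeff k X ∈ G.I ∧ coeff k X ∈ G.Hm (g - k * dx)) {w : List (Option M)}
    (hw : g ≤ w.length) : G.wd ρ w X = 0 := by
  ext k
  rw [map_zero]
  obtain ⟨h1, h2⟩ := wd_c h hX w k
  refine hI G hG _ _ h1 h2 ?_
  have h3 := wt_ge hdx hxd w
  have h4 : (0 : ℤ) ≤ k * dx := by positivity
  omega

theorem rn_root0 [Fintype M] (h : CD G dx Q ρ E F f) (he : Even dx) (u : (PowerSeries G.A)ˣ)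
    (g : ℤ) : (rn G dx he Q ρ u g).Root0 where
  L_univ j := Finset.mem_univ j
  P_s := by
    refine funext fun _ => ?_
    show psH G.s (PowerSeries.C Q) = -PowerSeries.C Q
    rw [psH_C, Hm_s_odd G (he.add_one) h.Q_d, map_neg]
  P_d := by
    intro _ n
    exact C_mem (fun n : ℕ => G.Hm (dx + 1 - n * dx)) (by simpa using h.Q_d) n
  P_R := by
    intro _ n
    exact C_mem (fun _ => Subalgebra.toSubmodule G.R) (G.I_le _ h.Q_I) n
  P_x := by
    refine funext fun _ => ?_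
    show psdx G.A (PowerSeries.C Q) = 0
    exact psdx_C Q
  P_D := by
    refine funext fun _ => ?_
    show psL G.D (PowerSeries.C Q) = 0
    rw [psL_C, h.Q_D, map_zero]
  φ1 := rfl
  ρ_s j := by
    refine funext fun _ => ?_
    show psH G.s (PowerSeries.C (ρ j)) = -PowerSeries.C (ρ j)
    rw [psH_C, Hm_s_odd G (he.sub_odd (G.xd_odd j)) (h.ρ_d j), map_neg]
  ρ_d j := by
    intro _ n
    exact C_mem (fun n : ℕ => G.Hm (dx - xd j - n * dx)) (by simpa using h.ρ_d j) n
  ρ_R j := by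
    intro _ n
    exact C_mem (fun _ => Subalgebra.toSubmodule G.R) (h.ρ_R j) n
  ρ_x j := by
    refine funext fun _ => ?_
    show psdx G.A (PowerSeries.C (ρ j)) = 0
    exact psdx_C (ρ j)
  ρ_D j := by
    refine funext fun _ => ?_
    show psL G.D (PowerSeries.C (ρ j)) + psL (G.pd j) (PowerSeries.C Q) = 0
    rw [psL_C, psL_C, ← map_add, h.ρ_D, map_zero]
  ρ_c i j := by
    obtain ⟨c, hc⟩ := h.ρ_c i j
    have e0 : psL (G.pd i) (PowerSeries.C (ρ j)) + psL (G.pd j) (PowerSeries.C (ρ i)) =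
        PowerSeries.C (algebraMap ℚ G.A c) := by
      rw [psL_C, psL_C, ← map_add, hc]
    have e1 : algebraMap ℚ G.A c ∈ G.Hm (dx - xd i - xd j) := by
      rw [← hc]
      have h1 := Hm_pd G (h.ρ_d j) i
      have h2 := Hm_pd G (h.ρ_d i) j
      have e3 : dx - xd j - xd i = dx - xd i - xd j := by ring
      rw [e3] at h1
      exact (G.Hm _).add_mem h1 h2
    have key : (algebraMap ℚ G.A c = 0) ∨ (dx - xd i - xd j = 0) := by
      by_cases hc0 : c = 0
      · left; rw [hc0, map_zero]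
      · have h1 : (1 : G.A) ∈ G.Hm (dx - xd i - xd j) := by
          have := (G.Hm (dx - xd i - xd j)).smul_mem c⁻¹ e1
          rwa [Algebra.algebraMap_eq_smul_one, smul_smul, inv_mul_cancel₀ hc0, one_smul] at this
        rcases Hm_one_zero G h1 with h2 | h2
        · exact Or.inr h2
        · left
          rw [Algebra.algebraMap_eq_smul_one, h2, smul_zero]
    rcases key with h1 | h1
    · left
      refine funext fun _ => ?_
      show psL (G.pd i) (PowerSeries.C (ρ j)) + psL (G.pd j) (PowerSeries.C (ρ i)) = 0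
      rw [e0, h1, map_zero]
    · right
      refine ⟨funext fun _ => h1, c, ?_⟩
      refine funext fun _ => ?_
      show psL (G.pd i) (PowerSeries.C (ρ j)) + psL (G.pd j) (PowerSeries.C (ρ i)) =
        c • (1 : PowerSeries G.A)
      rw [e0]
      ext n
      rw [ps_coeff_smul, coeff_C, coeff_one]
      split_ifs
      · rw [Algebra.algebraMap_eq_smul_one]
      · rw [smul_zero]

theorem rn_root [Fintype M] (h : CD G dx Q ρ E F f) (he : Even dx) {X : PowerSeries G.A} {g : ℤ}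
    (hX : ∀ k : ℕ, coeff k X ∈ G.I ∧ coeff k X ∈ G.Hm (g - k * dx)) (hs : psH G.s X = X)
    (hD : dl G Q X = 0) (u : (PowerSeries G.A)ˣ) (hu : (u : PowerSeries G.A) = X) :
    (rn G dx he Q ρ u g).Root where
  toRoot0 := rn_root0 h he u g
  Q_s := by
    refine funext fun _ => ?_
    show psH G.s (u : PowerSeries G.A) = u
    rw [hu, hs]
  Q_d := by
    intro _ n
    show coeff n (u : PowerSeries G.A) ∈ G.Hm (g - n * dx)
    rw [hu]
    exact (hX n).2
  Q_I := by
    intro _ n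
    show coeff n (u : PowerSeries G.A) ∈ G.I
    rw [hu]
    exact (hX n).1
  ΔQ := by
    show (rn G dx he Q ρ u g).Δ (fun _ => (u : PowerSeries G.A)) = 0
    rw [rn_Δ, hu, hD]
    rfl

/-- Words of closed series are closed. -/
theorem wd_dl [Fintype M] (h : CD G dx Q ρ E F f) (he : Even dx) {X : PowerSeries G.A}
    (hD : dl G Q X = 0) (w : List (Option M)) : dl G Q (G.wd ρ w X) = 0 := by
  have h1 := wo_Δ (rn_root0 h he (1 : (PowerSeries G.A)ˣ) 0) w (a := fun _ => X) (by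
    rw [rn_Δ, hD]; rfl)
  rw [rn_wo, rn_Δ] at h1
  exact congrFun h1 ()

theorem wd_s [Fintype M] (h : CD G dx Q ρ E F f) (he : Even dx) {X : PowerSeries G.A}
    (hX : psH G.s X = X) {w : List (Option M)} (hw : Even (w.countP Option.isSome)) :
    psH G.s (G.wd ρ w X) = G.wd ρ w X := by
  have h1 := wo_s (rn_root0 h he (1 : (PowerSeries G.A)ˣ) 0) w (a := fun _ => X)
    (funext fun _ => hX)
  rw [rn_wo] at h1
  have h2 : psH G.s (G.wd ρ w X) = (-1 : ℚ) ^ (w.countP Option.isSome) • G.wd ρ w X :=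
    congrFun h1 ()
  rwa [hw.neg_one_pow, one_smul] at h2

theorem CD.F_s (h : CD G dx Q ρ E F f) (he : Even dx) {a : α} (ha : a ∈ E) :
    psH G.s (F a) = F a := by
  ext n
  rw [coeff_psH]
  exact Hm_s_even G ((h.f_e a ha).sub (he.mul_left _)) (h.F_c a ha n).2

theorem dl_pow_mul (G : GA M xd N) {dx : ℤ} (he : Even dx) {Q : G.A} (hQ : G.s Q = -Q)
    {X : PowerSeries G.A} (hs : psH G.s X = X) (hX : dl G Q X = 0) (c : ℕ) (y : PowerSeries G.A) :
    dl G Q (X ^ c * y) = X ^ c * dl G Q y := by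
  have sg : Sg (psH G.s) :=
    ⟨(psn G dx he).s_s, (psn G dx he).even_comm, (psn G dx he).odd_anti⟩
  have hod : OD (psH G.s) (psL G.D + (LinearMap.mulLeft ℚ (PowerSeries.C Q)).comp (psdx G.A)) := by
    refine OD.add_smul_ED sg ⟨(psn G dx he).D_mul, (psn G dx he).s_D⟩
      ⟨(psn G dx he).dx_mul, (psn G dx he).s_dx⟩ ?_
    rw [psH_C, hQ, map_neg]
  have hsp : ∀ c : ℕ, psH G.s (X ^ c) = X ^ c := fun c => by rw [map_pow, hs]
  have hp : ∀ c : ℕ, dl G Q (X ^ c) = 0 := by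
    intro c
    induction c with
    | zero => rw [pow_zero]; exact hod.one
    | succ c ih =>
      rw [pow_succ]
      have h1 := hod.mul (X ^ c) X
      have h2 : dl G Q (X ^ c * X) = dl G Q (X ^ c) * X + psH G.s (X ^ c) * dl G Q X := h1
      rw [h2, ih, hX, zero_mul, mul_zero, add_zero]
  have h1 := hod.mul (X ^ c) y
  have h2 : dl G Q (X ^ c * y) = dl G Q (X ^ c) * y + psH G.s (X ^ c) * dl G Q y := h1
  rw [h2, hp, zero_mul, zero_add, hsp]

theorem wt_fun (dx : ℤ) (xd : M → ℤ) (w : List (Option M)) :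
    wt (fun _ : Unit => dx) (fun j (_ : Unit) => xd j) w = fun _ => wt dx xd w := by
  induction w with
  | nil => rfl
  | cons o w ih =>
    cases o with
    | none =>
      show (fun _ : Unit => dx) + wt (fun _ : Unit => dx) (fun j (_ : Unit) => xd j) w = _
      rw [ih]
      rfl
    | some s =>
      show (fun _ : Unit => xd s) + wt (fun _ : Unit => dx) (fun j (_ : Unit) => xd j) w = _
      rw [ih]
      rfl

/-- One word. -/
theorem kil_step [Fintype M] {K : Set (GA M xd N)} (hI : IPos K) (he : Even dx)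
    (hN : ∀ ℓ, Nst K dx he ℓ) (hG : G ∈ K) (hdx : 2 ≤ dx) (hxd : ∀ j, 0 < xd j)
    (h : CD G dx Q ρ E F f) {a : α} (ha : a ∈ E) (w : List (Option M))
    (hw : Even (w.countP Option.isSome))
    (hlong : ∀ v : List (Option M), v ≠ [] → Even (v.countP Option.isSome) →
      Kil G dx Q ρ (F a) (f a) (v ++ w)) :
    ∃ H ∈ K, ∃ φ : Mor G H, φ.Tame ∧
      Kil H dx (φ.f Q) (fun s => φ.f (ρ s)) (psF φ.f (F a)) (f a) w := by
  rcases h.dich a ha w hw with ⟨k, hk⟩ | hu
  · exact ⟨G, hG, Mor.id G, fun g hg => Or.inl ⟨g, hg, rfl⟩, (kil_zero k hk).map (Mor.id G)⟩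
  obtain ⟨u, hu⟩ := ps_isUnit hu
  have hX := wd_c h (h.F_c a ha) w
  have hs := wd_s h he (h.F_s he ha) hw
  have hD := wd_dl h he (h.dl_F ha) w
  have hr := rn_root h he hX hs hD u hu
  obtain ⟨F', hF'⟩ := root_fil hr (f a - wt dx xd w).toNat
    (by
      intro v hv
      show (rn G dx he Q ρ u (f a - wt dx xd w)).wo v (fun _ => (u : PowerSeries G.A)) = 0
      rw [rn_wo, hu, wd_long hI hG hdx hxd h hX (by omega)]
      rfl)
    (by
      intro v hv hve
      obtain ⟨c, z, z1, z2, z3⟩ := hlong v hv hve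
      refine ⟨c, fun _ => z, ⟨fun j hj => absurd (hr.L_univ j) hj, 0, ?_⟩, ?_, ?_⟩
      · rw [pow_zero]
        intro _
        show (1 : PowerSeries G.A) * z ∈ psR G.R
        rw [one_mul]
        exact z1
      · intro _ n
        have e1 : (c • ((fun _ : Unit => f a - wt dx xd w) -
            wt (fun _ : Unit => dx) (fun j (_ : Unit) => xd j) v) - (fun _ => (1 : ℤ)) :
              Unit → ℤ) () = (c : ℤ) * (f a - wt dx xd (v ++ w)) - 1 := by
          rw [wt_fun, wt_append]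
          show c • ((f a - wt dx xd w) - wt dx xd v) - 1 = _
          rw [nsmul_eq_mul]
          ring
        show coeff n z ∈ G.Hm ((c • ((fun _ : Unit => f a - wt dx xd w) -
            wt (fun _ : Unit => dx) (fun j (_ : Unit) => xd j) v) - (fun _ => (1 : ℤ)) :
              Unit → ℤ) () - n * dx)
        rw [e1]
        exact z2 n
      · rw [rn_Δ, z3]
        show _ = (rn G dx he Q ρ u (f a - wt dx xd w)).wo v (fun _ => (u : PowerSeries G.A)) ^ c
        rw [rn_wo, hu, wd_append]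
        rfl)
  obtain ⟨Y, φ, hY, hφ, η, η1, η2, η3⟩ := hN _ Unit (fun _ => G) (fun _ => hG) _ F' (root_ok hr) hF' rfl
  obtain ⟨-, c, hc⟩ := η1
  obtain ⟨y, hy⟩ : ∃ y : PowerSeries (Y ()).A, y = η () := ⟨η (), rfl⟩
  refine ⟨Y (), hY (), φ (), hφ (), ?_⟩
  have hd' := h.map (φ ())
  have hX' : ∀ k : ℕ, coeff k (psF (φ ()).f (G.wd ρ w (F a))) ∈ (Y ()).I ∧
      coeff k (psF (φ ()).f (G.wd ρ w (F a))) ∈ (Y ()).Hm (f a - wt dx xd w - k * dx) := by
    intro k
    rw [coeff_psF]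
    exact ⟨(φ ()).I _ (hX k).1, Mor_Hm G (φ ()) (hX k).2⟩
  have hs' : psH (Y ()).s (psF (φ ()).f (G.wd ρ w (F a))) = psF (φ ()).f (G.wd ρ w (F a)) := by
    rw [psF_psH (φ ()).f G.s (Y ()).s (φ ()).s, hs]
  have hD' : dl (Y ()) ((φ ()).f Q) (psF (φ ()).f (G.wd ρ w (F a))) = 0 := by
    rw [← psF_dl, hD, map_zero]
  have hη : dl (Y ()) ((φ ()).f Q) y = 1 := by
    have h1 := congrFun η3 ()
    unfold dl
    rw [← psF_C, hy]
    exact h1
  have hR : psF (φ ()).f (G.wd ρ w (F a)) ^ c * y ∈ psR (Y ()).R := by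
    have h1 := hc ()
    rw [← hu, hy]
    exact h1
  have hy2 : ∀ n : ℕ, coeff n y ∈ (Y ()).Hm (-1 - n * dx) := by
    intro n
    rw [hy]
    exact η2 () n
  refine ⟨c, psF (φ ()).f (G.wd ρ w (F a)) ^ c * y, hR, ?_, ?_⟩
  · have h1 : ∀ c : ℕ, ∀ n : ℕ, coeff n (psF (φ ()).f (G.wd ρ w (F a)) ^ c) ∈
        (Y ()).Hm (c * (f a - wt dx xd w) - n * dx) := by
      intro c
      induction c with
      | zero =>
        intro n
        rw [pow_zero, Nat.cast_zero, zero_mul]
        exact (psn (Y ()) dx he).Hd_one n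
      | succ c ih =>
        intro n
        rw [pow_succ]
        have := (psn (Y ()) dx he).Hd_mul _ _ _ _ ih (fun k => (hX' k).2) n
        have e1 : (c : ℤ) * (f a - wt dx xd w) + (f a - wt dx xd w) =
            ((c + 1 : ℕ) : ℤ) * (f a - wt dx xd w) := by push_cast; ring
        rwa [e1] at this
    intro n
    have := (psn (Y ()) dx he).Hd_mul _ _ _ _ (h1 c) hy2 n
    rw [← sub_eq_add_neg] at this
    exact this
  · rw [dl_pow_mul (Y ()) he (by rw [(φ ()).s, Hm_s_odd G he.add_one h.Q_d, map_neg]) hs' hD', hη,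
      mul_one, psF_wd]

end AnOC
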